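import Pool.Agent.N809.PQ.Sums

/-!
# The 2-parity of all the twists of `X_0(21)`: `Sg21 m` implies root number `+1`
-/

set_option autoImplicit false

open Finset

namespace Pool.Agent.N809.PQ

open Pool.Agent.N875.X15
open Pool.Agent.N875.P17
open Pool.Agent.N809.P17 (al_total)

open scoped Classical

variable {m : ℤ}

/-- the active unknowns -/
def act21 (m : ℤ) (k : Fin 3) : Prop := (k = 0 ∧ 0 < m) ∨ (k = 1 ∧ C3 m) ∨ (k = 2 ∧ ¬ (7 : ℤ) ∣ m)

lemma act21_0 : act21 m 0 ↔ 0 < m := by simp [act21]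
lemma act21_1 : act21 m 1 ↔ C3 m := by simp [act21]
lemma act21_2 : act21 m 2 ↔ ¬ (7 : ℤ) ∣ m := by simp [act21]

def F21 (m : ℤ) (p : ℕ) (k : Fin 3) : ZMod 2 :=
  if k = 0 then 0 else if k = 1 then ra p (-3) else Lm m p 7

def G21 (m : ℤ) (q : ℕ) (k : Fin 3) : ZMod 2 :=
  if k = 0 then al m q else if k = 1 then ra 3 (ps m q) else 0

noncomputable def H21 (m : ℤ) (k l : Fin 3) : ZMod 2 := if k = 2 ∧ l = 2 then (if C7 m then 0 else 1) else 1

lemma H21_symm (k l : Fin 3) : H21 m k l = H21 m l k := by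
  unfold H21
  by_cases h : k = 2 ∧ l = 2
  · rw [if_pos h, if_pos h.symm]
  · rw [if_neg h, if_neg (fun h' => h h'.symm)]

lemma F21s (p : ℕ) (z : Fin 3 → ZMod 2) :
    ∑ k, F21 m p k * z k = z 1 * ra p (-3) + z 2 * Lm m p 7 := by
  rw [Fin.sum_univ_three]
  have e0 : F21 m p 0 = 0 := rfl
  have e1 : F21 m p 1 = ra p (-3) := rfl
  have e2 : F21 m p 2 = Lm m p 7 := rfl
  rw [e0, e1, e2]
  ring

lemma G21s (q : ℕ) (z : Fin 3 → ZMod 2) :
    ∑ k, G21 m q k * z k = z 0 * al m q + z 1 * ra 3 (ps m q) := by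
  rw [Fin.sum_univ_three]
  have e0 : G21 m q 0 = al m q := rfl
  have e1 : G21 m q 1 = ra 3 (ps m q) := rfl
  have e2 : G21 m q 2 = 0 := rfl
  rw [e0, e1, e2]
  ring

lemma H21s0 (z : Fin 3 → ZMod 2) : ∑ l, H21 m 0 l * z l = z 0 + z 1 + z 2 := by
  rw [Fin.sum_univ_three]
  have e : ∀ l, H21 m 0 l = 1 := fun l => if_neg (fun h => absurd h.1 (by decide))
  rw [e, e, e]
  ring

lemma H21s1 (z : Fin 3 → ZMod 2) : ∑ l, H21 m 1 l * z l = z 0 + z 1 + z 2 := by
  rw [Fin.sum_univ_three]
  have e : ∀ l, H21 m 1 l = 1 := fun l => if_neg (fun h => absurd h.1 (by decide))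
  rw [e, e, e]
  ring

lemma H21s2 (z : Fin 3 → ZMod 2) :
    ∑ l, H21 m 2 l * z l = z 0 + z 1 + (if C7 m then 0 else z 2) := by
  rw [Fin.sum_univ_three]
  have e0 : H21 m 2 0 = 1 := if_neg (fun h => absurd h.2 (by decide))
  have e1 : H21 m 2 1 = 1 := if_neg (fun h => absurd h.2 (by decide))
  have e2 : H21 m 2 2 = if C7 m then 0 else 1 := if_pos ⟨rfl, rfl⟩
  rw [e0, e1, e2]
  split_ifs <;> ring

/-- the two descriptions -/
theorem sys21_iff (hm : m ≠ 0) (x y : ℕ → ZMod 2) (z : Fin 3 → ZMod 2) :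
    Sys (PR m) (act21 m) (fun p => Lm m p 7) (Lm m) (F21 m) (G21 m) (H21 m) x y z (fun _ => 0)
      (fun _ => 0) (fun _ => 0) ↔ Sol21 m x y (z 0) (z 1) (z 2) := by
  constructor
  · intro h
    refine ⟨fun h0 => h.inact 0 (by rw [act21_0]; omega), fun h0 => h.inact 1 (by rwa [act21_1]),
      fun h0 => h.inact 2 (by rw [act21_2]; exact not_not.2 h0), fun p hp => ?_, fun q hq => ?_,
      fun h0 => ?_, fun h0 => ?_, fun h0 => ?_⟩
    · have h1 := h.row p hp
      rw [F21s, ← add_assoc] at h1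
      exact h1
    · have h1 := h.col q hq
      rw [G21s, ← add_assoc] at h1
      exact h1
    · have h1 := h.ext 0 (act21_0.2 h0)
      rw [H21s0] at h1
      have e1 : ∑ p ∈ PR m, F21 m p 0 * x p = 0 := sum_eq_zero fun p _ => zero_mul _
      rw [e1, zero_add, ← add_assoc, ← add_assoc] at h1
      exact h1
    · have h1 := h.ext 1 (act21_1.2 h0)
      rw [H21s1, ← add_assoc, ← add_assoc] at h1
      exact h1
    · have h1 := h.ext 2 (act21_2.2 h0)
      have e1 : ∑ q ∈ PR m, G21 m q 2 * y q = 0 := sum_eq_zero fun p _ => zero_mul _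
      rw [H21s2, e1, add_zero, ← add_assoc, ← add_assoc] at h1
      exact h1
  · intro h
    refine ⟨fun k hk => ?_, fun p hp => ?_, fun q hq => ?_, fun k hk => ?_⟩
    · fin_cases k
      · have h0 : ¬ 0 < m := fun h0 => hk (act21_0.2 h0)
        exact h.s0 (by omega)
      · exact h.a0 (fun h0 => hk (act21_1.2 h0))
      · exact h.c0 (by_contra fun h0 => hk (act21_2.2 h0))
    · rw [F21s, ← add_assoc]
      exact h.row p hp
    · rw [G21s, ← add_assoc]
      exact h.col q hq
    · fin_cases k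
      · have e1 : ∑ p ∈ PR m, F21 m p 0 * x p = 0 := sum_eq_zero fun p _ => zero_mul _
        show ∑ p ∈ PR m, F21 m p 0 * x p + ∑ q ∈ PR m, G21 m q 0 * y q + ∑ l, H21 m 0 l * z l = 0
        rw [H21s0, e1, zero_add, ← add_assoc, ← add_assoc]
        exact h.sgn (act21_0.1 hk)
      · show ∑ p ∈ PR m, F21 m p 1 * x p + ∑ q ∈ PR m, G21 m q 1 * y q + ∑ l, H21 m 1 l * z l = 0
        rw [H21s1, ← add_assoc, ← add_assoc]
        exact h.at3 (act21_1.1 hk)
      · have e1 : ∑ q ∈ PR m, G21 m q 2 * y q = 0 := sum_eq_zero fun p _ => zero_mul _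
        show ∑ p ∈ PR m, F21 m p 2 * x p + ∑ q ∈ PR m, G21 m q 2 * y q + ∑ l, H21 m 2 l * z l = 0
        rw [H21s2, e1, add_zero, ← add_assoc, ← add_assoc]
        exact h.at7 (act21_2.1 hk)

lemma al7 : al m 7 = 1 := by
  rw [al_odd (by norm_num), sgp7]
  decide

lemma ps7 : ps m 7 = -7 := by rw [ps_odd (by norm_num), sgp7]

/-- the entries of the column `7` -/
lemma Lm7 {p : ℕ} (hp : p.Prime) (hp7 : p ≠ 7) : Lm m p 7 = ra 7 (p : ℤ) := by
  unfold Lm
  rw [if_neg hp7, ps7, ra_m7 hp]

lemma Lm7_two : Lm m 2 7 = 0 := by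
  rw [Lm7 (by norm_num) (by norm_num), ra7]
  norm_num

/-- the first torsion point -/
theorem tor21_y (hs : Squarefree m) : Sol21 m (fun _ => 0) (fun _ => 1) 0 0 0 where
  s0 := fun _ => rfl
  a0 := fun _ => rfl
  c0 := fun _ => rfl
  row := fun p hp => by
    rw [zero_mul, zero_mul, mul_zero, add_zero, add_zero, zero_add]
    simp only [mul_one]
    exact row_sum hp
  col := fun q hq => by
    rw [zero_mul, zero_mul, add_zero, add_zero]
    exact sum_eq_zero fun _ _ => mul_zero _
  sgn := fun h0 => by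
    simp only [mul_one]
    rw [al_total hs, if_neg (by omega)]
    decide
  at3 := fun h0 => by
    unfold C3 at h0
    have h6 : 3 ∉ PR m := fun h => by
      have := dvd_PR hs h (by norm_num)
      push_cast at this
      omega
    rw [sum_eq_zero (s := PR m) (f := fun p => ra p (-3) * 0) fun _ _ => mul_zero _, zero_add]
    simp only [mul_one]
    rw [sum_ra_ps hs (by norm_num) h6, ra3, if_pos h0]
    decide
  at7 := fun _ => by
    rw [sum_eq_zero fun _ _ => mul_zero _, ite_self]
    decide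

/-- the second torsion point -/
theorem tor21_x (hs : Squarefree m) : Sol21 m (fun p => if (p : ℤ) ∣ m then 1 else 0)
    (fun q => if q = 7 then 1 else 0)
    (if 0 < m then 1 else 0) 0 (if (7 : ℤ) ∣ m then 0 else 1) where
  s0 := fun h => if_neg (by omega)
  a0 := fun _ => rfl
  c0 := fun h => if_pos h
  row := fun p hp => by
    have e1 : ∑ q ∈ PR m, Lm m p q * (if q = 7 then (1 : ZMod 2) else 0) =
        if 7 ∈ PR m then Lm m p 7 else 0 := by
      rw [sum_congr rfl fun q _ => show Lm m p q * (if q = 7 then (1 : ZMod 2) else 0) =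
        if q = 7 then Lm m p q else 0 by split_ifs <;> ring, sum_ite_eq']
    have e7 : 7 ∈ PR m ↔ (7 : ℤ) ∣ m := by
      constructor
      · intro h
        have := dvd_PR hs h (by norm_num)
        exact_mod_cast this
      · intro h
        exact PR_of_dvd hs (by norm_num) (by exact_mod_cast h)
    rw [e1, zero_mul, add_zero]
    have e2 : Lm m p 7 * (if (p : ℤ) ∣ m then (1 : ZMod 2) else 0) = Lm m p 7 := by
      by_cases hp2 : p = 2
      · subst hp2
        rw [Lm7_two, zero_mul]
      · rw [if_pos (dvd_PR hs hp hp2), mul_one]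
    rw [e2]
    by_cases h7 : (7 : ℤ) ∣ m
    · rw [if_pos (e7.2 h7), if_pos h7, zero_mul, add_zero, z2]
    · rw [if_neg (fun h => h7 (e7.1 h)), if_neg h7, one_mul, add_zero, z2]
  col := fun q hq => by
    rw [zero_mul, add_zero]
    exact col_tor hs hq
  sgn := fun h0 => by
    rw [sum_congr rfl fun q _ => show al m q * (if q = 7 then (1 : ZMod 2) else 0) =
      if q = 7 then al m q else 0 by split_ifs <;> ring, sum_ite_eq', al7, if_pos h0, add_zero]
    have e7 : 7 ∈ PR m ↔ (7 : ℤ) ∣ m := by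
      constructor
      · intro h
        have := dvd_PR hs h (by norm_num)
        exact_mod_cast this
      · intro h
        exact PR_of_dvd hs (by norm_num) (by exact_mod_cast h)
    by_cases h7 : (7 : ℤ) ∣ m
    · rw [if_pos (e7.2 h7), if_pos h7]
      decide
    · rw [if_neg (fun h => h7 (e7.1 h)), if_neg h7]
      decide
  at3 := fun h0 => by
    unfold C3 at h0
    rw [sum_congr rfl fun q _ => show ra 3 (ps m q) * (if q = 7 then (1 : ZMod 2) else 0) =
      if q = 7 then ra 3 (ps m q) else 0 by split_ifs <;> ring, sum_ite_eq', ps7, sum_dv hs,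
      one_mul, sum_congr rfl fun p hp => ra_m3 (Nat.mem_primeFactors.1 hp).1,
      sum_ra_abs hs (by norm_num) (by norm_num) (by push_cast; omega), ra3, ra3]
    have e7 : 7 ∈ PR m ↔ (7 : ℤ) ∣ m := by
      constructor
      · intro h
        have := dvd_PR hs h (by norm_num)
        exact_mod_cast this
      · intro h
        exact PR_of_dvd hs (by norm_num) (by exact_mod_cast h)
    have e8 : (if (-7 : ℤ) % 3 = 1 then (0 : ZMod 2) else 1) = 1 := by norm_num
    rw [e8]
    by_cases h7 : (7 : ℤ) ∣ m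
    · rw [if_pos (e7.2 h7), if_pos h7]
      rcases lt_or_gt_of_ne hs.ne_zero with h | h
      · rw [if_neg (by omega), if_neg (by omega)]
        decide
      · rw [if_pos (by omega), if_pos (by omega)]
        decide
    · rw [if_neg (fun h => h7 (e7.1 h)), if_neg h7]
      rcases lt_or_gt_of_ne hs.ne_zero with h | h
      · rw [if_neg (by omega), if_neg (by omega)]
        decide
      · rw [if_pos (by omega), if_pos (by omega)]
        decide
  at7 := fun h7 => by
    have h7' : ∀ p ∈ m.natAbs.primeFactors, p ≠ 7 := by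
      rintro p hp rfl
      exact h7 (Int.natCast_dvd.2 (Nat.mem_primeFactors.1 hp).2.1)
    rw [sum_dv hs, one_mul, sum_congr rfl fun p hp => Lm7 (Nat.mem_primeFactors.1 hp).1 (h7' p hp),
      sum_ra_abs hs (by norm_num) (by norm_num) (by exact_mod_cast h7), ra7, if_neg h7, add_zero]
    by_cases h8 : C7 m
    · rw [if_pos h8]
      unfold C7 at h8
      rcases lt_or_gt_of_ne hs.ne_zero with h | h
      · rw [if_pos (by omega), if_neg (by omega)]
        decide
      · rw [if_neg (by omega), if_pos (by omega)]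
        decide
    · rw [if_neg h8]
      unfold C7 at h8
      rcases lt_or_gt_of_ne hs.ne_zero with h | h
      · rw [if_neg (by omega), if_neg (by omega)]
        decide
      · rw [if_pos (by omega), if_pos (by omega)]
        decide

/-- **2-parity at level 21.** -/
theorem sg21_parity (hs : Squarefree m) (h1 : m ≠ 1) (hS : Sg21 m) : w21 m = 1 := by
  have hm := hs.ne_zero
  have hneg : 0 < m ↔ ¬ m < 0 := by omega
  have c0 : act21 m 0 ↔ ¬ m < 0 := act21_0.trans hneg
  have c1 : act21 m 1 ↔ m % 3 = 1 := act21_1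
  have e00 : H21 m 0 0 = 1 := if_neg (fun h => absurd h.1 (by decide))
  have e11 : H21 m 1 1 = 1 := if_neg (fun h => absurd h.1 (by decide))
  have e22 : H21 m 2 2 = if C7 m then 0 else 1 := if_pos ⟨rfl, rfl⟩
  by_cases h7 : (7 : ℤ) ∣ m
  · have hP7 : 7 ∈ PR m := PR_of_dvd hs (by norm_num) (by exact_mod_cast h7)
    have hT := (sys21_iff hm _ _ ![if 0 < m then 1 else 0, 0, 0]).2
      (by have := tor21_x hs; rw [if_pos h7] at this; exact this)
    have hU := (sys21_iff hm _ _ ![0, 0, 0]).2 (tor21_y hs)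
    have c2 : ¬ act21 m 2 := fun h => act21_2.1 h h7
    have key := sys_par (H21_symm (m := m)) (Sum.inl ⟨7, hP7⟩) (Sum.inr (Sum.inl ⟨7, hP7⟩)) hT hU
      (if_pos (by exact_mod_cast h7)) rfl rfl ?_ (cx := fun _ => 0)
      (cy := fun q => if q = 7 then 1 else 0) (cz := fun _ => 0) ?_
    · have e1 : ∑ p ∈ PR m, Lm m p 7 * (0 : ZMod 2) = 0 := sum_eq_zero fun _ _ => mul_zero _
      have e2 : ∑ k, H21 m k k * 0 = 0 := sum_eq_zero fun _ _ => mul_zero _
      rw [e1, e2, add_zero, Fin.sum_univ_three, if_neg c2] at key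
      unfold w21
      have e3 : ¬ (m % 7 = 3 ∨ m % 7 = 5 ∨ m % 7 = 6) := by omega
      simp only [c0, c1] at key
      revert key
      rw [if_neg e3]
      by_cases a0 : m < 0 <;> by_cases a1 : m % 3 = 1 <;>
        simp only [a0, a1, if_true, if_false, not_true, not_false_eq_true] <;> decide
    · intro x y z hz hx hy
      obtain ⟨ha, α, β, e1, e4, e2, e3⟩ := hS x y _ _ _ ((sys21_iff hm _ _ _).1 hz)
      have hα : α = 0 := by
        have h3 : x 7 = 0 := hx
        rwa [e2 7 hP7, if_pos (by exact_mod_cast h7)] at h3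
      subst hα
      have hβ : β = 0 := by
        have h3 : y 7 = 0 := hy
        rwa [e3 7 hP7, if_pos rfl, add_zero] at h3
      subst hβ
      refine ⟨fun p hp => by rw [e2 p hp, ite_self], fun p hp => by rw [e3 p hp, ite_self, add_zero],
        fun k _ => ?_⟩
      fin_cases k
      · show z 0 = 0
        rw [e1, ite_self]
      · exact ha
      · show z 2 = 0
        rw [e4, ite_self]
    · refine ⟨fun _ _ => rfl, fun p hp => ?_, fun q hq => ?_, fun k hk => ?_⟩
      · rw [mul_zero, zero_add, sum_congr rfl fun q _ => show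
          Lm m p q * (if q = 7 then (1 : ZMod 2) else 0) = if q = 7 then Lm m p q else 0 by
          split_ifs <;> ring, sum_ite_eq', if_pos hP7, sum_eq_zero fun _ _ => mul_zero _, add_zero]
      · rw [sum_eq_zero fun _ _ => mul_zero _, sum_eq_zero fun _ _ => mul_zero _]
        ring
      · rw [sum_eq_zero fun _ _ => mul_zero _, zero_add, sum_congr rfl fun q _ => show
          G21 m q k * (if q = 7 then (1 : ZMod 2) else 0) = if q = 7 then G21 m q k else 0 by
          split_ifs <;> ring, sum_ite_eq', if_pos hP7, sum_eq_zero fun _ _ => mul_zero _, add_zero]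
        fin_cases k
        · show al m 7 = H21 m 0 0
          rw [al7, e00]
        · show ra 3 (ps m 7) = H21 m 1 1
          rw [ps7, ra3, e11]
          norm_num
        · exact absurd hk c2
  · obtain ⟨q0, hq0⟩ : ∃ q, q ∈ PR m := by
      by_cases h4 : m % 4 = 1
      · obtain ⟨p, hp, hd⟩ := Nat.exists_prime_and_dvd (n := m.natAbs) (by omega)
        exact ⟨p, PR_of_dvd hs hp (Int.natCast_dvd.2 hd)⟩
      · exact ⟨2, (two_mem_PR hm).2 h4⟩
    have hT := (sys21_iff hm _ _ ![if 0 < m then 1 else 0, 0, 1]).2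
      (by have := tor21_x hs; rw [if_neg h7] at this; exact this)
    have hU := (sys21_iff hm _ _ ![0, 0, 0]).2 (tor21_y hs)
    have c2 : act21 m 2 := act21_2.2 h7
    have key := sys_par (H21_symm (m := m)) (Sum.inr (Sum.inr ⟨2, c2⟩))
      (Sum.inr (Sum.inl ⟨q0, hq0⟩)) hT hU rfl rfl rfl ?_ (cx := fun _ => 0)
      (cy := fun _ => 0) (cz := ![0, 0, 1]) ?_
    · have e1 : ∑ p ∈ PR m, Lm m p 7 * (0 : ZMod 2) = 0 := sum_eq_zero fun _ _ => mul_zero _
      have e2 : ∑ k, H21 m k k * (![0, 0, 1] : Fin 3 → ZMod 2) k = H21 m 2 2 := by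
        rw [Fin.sum_univ_three]
        show H21 m 0 0 * 0 + H21 m 1 1 * 0 + H21 m 2 2 * 1 = _
        ring
      rw [e1, e2, zero_add, Fin.sum_univ_three, if_pos c2, e22] at key
      unfold w21
      simp only [c0, c1, C7] at key
      revert key
      by_cases a0 : m < 0 <;> by_cases a1 : m % 3 = 1 <;>
        by_cases a2 : m % 7 = 3 ∨ m % 7 = 5 ∨ m % 7 = 6 <;>
        simp only [a0, a1, a2, if_true, if_false, not_true, not_false_eq_true] <;> decide
    · intro x y z hz hx hy
      obtain ⟨ha, α, β, e1, e4, e2, e3⟩ := hS x y _ _ _ ((sys21_iff hm _ _ _).1 hz)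
      have hα : α = 0 := by
        have h3 : z 2 = 0 := hx
        rwa [e4, if_neg h7] at h3
      subst hα
      have hβ : β = 0 := by
        have h3 : y q0 = 0 := hy
        rwa [e3 q0 hq0, ite_self, add_zero] at h3
      subst hβ
      refine ⟨fun p hp => by rw [e2 p hp, ite_self], fun p hp => by rw [e3 p hp, ite_self, add_zero],
        fun k _ => ?_⟩
      fin_cases k
      · show z 0 = 0
        rw [e1, ite_self]
      · exact ha
      · show z 2 = 0
        rw [e4, ite_self]
    · refine ⟨fun k hk => ?_, fun p hp => ?_, fun q hq => ?_, fun k hk => ?_⟩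
      · fin_cases k
        · rfl
        · rfl
        · exact absurd c2 hk
      · rw [mul_zero, zero_add, sum_eq_zero fun _ _ => mul_zero _, zero_add, F21s]
        show 0 * ra p (-3) + 1 * Lm m p 7 = Lm m p 7
        ring
      · rw [sum_eq_zero fun _ _ => mul_zero _, G21s]
        show 0 + (0 * al m q + 0 * ra 3 (ps m q)) = 0
        ring
      · rw [sum_eq_zero fun _ _ => mul_zero _, sum_eq_zero fun _ _ => mul_zero _]
        fin_cases k
        · show 0 + 0 + ∑ l, H21 m 0 l * (![0, 0, 1] : Fin 3 → ZMod 2) l = H21 m 0 0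
          rw [H21s0, e00]
          rfl
        · show 0 + 0 + ∑ l, H21 m 1 l * (![0, 0, 1] : Fin 3 → ZMod 2) l = H21 m 1 1
          rw [H21s1, e11]
          rfl
        · show 0 + 0 + ∑ l, H21 m 2 l * (![0, 0, 1] : Fin 3 → ZMod 2) l = H21 m 2 2
          rw [H21s2, e22]
          show 0 + 0 + (0 + 0 + if C7 m then 0 else 1) = _
          ring

end Pool.Agent.N809.PQ
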