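import Pool.Agent.N875.P17.Mat

/-!
# The symmetric matrices of the 2-descent for ALL twists of the curves `X_0(15)` and `X_0(21)`

Verified numerically for all squarefree `m`, `|m| < 1400`: the kernel of the symmetric system is the
2-Selmer group of `E_m`; its dimension is even iff the root number is `+1` (`|m| < 3000`).

Level 15, `E_m : y² = x (x + 9 m) (x - 16 m)`. Square classes `u` of `x + 9 m`, `v` of `x - 16 m`.
Local images: `u ∈ <m>`, `v ∈ <-m>` at the odd `p ∣ m` (`3`, `5` included) and at infinity;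
at `2`: `m = 1 mod 4`: `u ∈ {1, 5}`, `v` a unit; `m ≠ 1 mod 4`: `u ∈ <m>`, `(v, m)_2 = 1`;
at `3 ∤ m`: `m = 2 mod 3` (split): `v = 1`, `u` free; `m = 1 mod 3`: `u`, `v` units;
at `5 ∤ m`: `m = ± 1 mod 5` (split): `u = v`; otherwise `u`, `v` units.
`u = (-3)^a 5^c ∏ q*^(y q)`, `v = (-1)^s 5^c ∏ p^(x p)` (products over `PR m`, `q* = ps m q`).

Level 21, `E_m : y² = x (x - 9 m) (x + 7 m)`. Square classes `w` of `x`, `u` of `x - 9 m`
(`v = u w` of `x + 7 m`). Local images: odd `p ∣ m`, `p ≠ 7`: `u (-m)^x = 1`, `w m^y (-7)^x = 1`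
(`x`, `y` the valuations of `u`, `w`); `7 ∣ m`: `u (-m)^x = 1`, `w m^y (-7 m)^x = 1`;
infinity: `m > 0`: `u w > 0`, `m < 0`: `u > 0`; at `2`: `m = 1 mod 4`: `w ∈ {1, 5}`, `u` a unit;
`m ≠ 1 mod 4`: `w ∈ <m>`, `(u, m)_2 = 1`; at `3 ∤ m`: `m = 1 mod 3` (split): `w = u`;
`m = 2 mod 3`: units; at `7 ∤ m`: `(m / 7) = -1` (split): `u = 1`, `w` free; `(m / 7) = 1`:
`u` a unit with `[u] = ` valuation of `w`.
`w = (-3)^a (-7)^c ∏ q*^(y q)`, `u = (-1)^s 3^a ∏ p^(x p)`.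
-/

set_option autoImplicit false

open Finset

namespace Pool.Agent.N809.PQ

open Pool.Agent.N875.X15
open Pool.Agent.N875.P17

/-! ### level 15 -/

/-- `3` is split in `ℚ(√-m)`: split multiplicative reduction of `E_m` at `3` (level 15) -/
def B3 (m : ℤ) : Prop := m % 3 = 2

/-- split multiplicative reduction of `E_m` at `5` (level 15) -/
def B5 (m : ℤ) : Prop := m % 5 = 1 ∨ m % 5 = 4

/-- the symmetric system of level `15` -/
structure Sol15 (m : ℤ) (x y : ℕ → ZMod 2) (s a c : ZMod 2) : Prop where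
  s0 : m < 0 → s = 0
  a0 : ¬ B3 m → a = 0
  c0 : ¬ B5 m → c = 0
  row : ∀ p ∈ PR m, ∑ q ∈ PR m, Lm m p q * y q + a * ra p (-3) + c * ra p 5 = 0
  col : ∀ q ∈ PR m, ∑ p ∈ PR m, Lm m p q * x p + s * al m q + c * ra 5 (ps m q) = 0
  sgn : 0 < m → ∑ q ∈ PR m, al m q * y q + a = 0
  at3 : B3 m → ∑ p ∈ PR m, ra p (-3) * x p + s + c = 0
  at5 : B5 m → ∑ p ∈ PR m, ra p 5 * x p + ∑ q ∈ PR m, ra 5 (ps m q) * y q + a = 0

/-- only the trivial solutions (the images of the 2-torsion points `(-9 m, 0)`, `(16 m, 0)`) -/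
def Sg15 (m : ℤ) : Prop := ∀ (x y : ℕ → ZMod 2) (s a c : ZMod 2), Sol15 m x y s a c →
  a = 0 ∧ c = 0 ∧ ∃ α β : ZMod 2, s = (if 0 < m then α else 0) ∧
    (∀ p ∈ PR m, x p = if (p : ℤ) ∣ m then α else 0) ∧ ∀ q ∈ PR m, y q = β

/-- the root number of the twist by `m`, level `15` -/
def w15 (m : ℤ) : ℤ := (if m < 0 then -1 else 1) * (if m % 3 = 2 then -1 else 1) *
  (if m % 5 = 1 ∨ m % 5 = 4 then 1 else -1)

/-! ### level 21 -/

/-- split multiplicative reduction of `E_m` at `3` (level 21) -/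
def C3 (m : ℤ) : Prop := m % 3 = 1

/-- split multiplicative reduction of `E_m` at `7` (level 21) -/
def C7 (m : ℤ) : Prop := m % 7 = 3 ∨ m % 7 = 5 ∨ m % 7 = 6

open scoped Classical in
/-- the symmetric system of level `21`; the diagonal entry `Lm m p 7` is `(-7 / p)` for `p ≠ 7` -/
structure Sol21 (m : ℤ) (x y : ℕ → ZMod 2) (s a c : ZMod 2) : Prop where
  s0 : m < 0 → s = 0
  a0 : ¬ C3 m → a = 0
  c0 : (7 : ℤ) ∣ m → c = 0
  row : ∀ p ∈ PR m, Lm m p 7 * x p + ∑ q ∈ PR m, Lm m p q * y q + a * ra p (-3) +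
    c * Lm m p 7 = 0
  col : ∀ q ∈ PR m, ∑ p ∈ PR m, Lm m p q * x p + s * al m q + a * ra 3 (ps m q) = 0
  sgn : 0 < m → ∑ q ∈ PR m, al m q * y q + s + a + c = 0
  at3 : C3 m → ∑ p ∈ PR m, ra p (-3) * x p + ∑ q ∈ PR m, ra 3 (ps m q) * y q + s + a + c = 0
  at7 : ¬ (7 : ℤ) ∣ m → ∑ p ∈ PR m, Lm m p 7 * x p + s + a + (if C7 m then 0 else c) = 0

/-- only the trivial solutions (the images of the 2-torsion points `(9 m, 0)` and `(0, 0)`) -/
def Sg21 (m : ℤ) : Prop := ∀ (x y : ℕ → ZMod 2) (s a c : ZMod 2), Sol21 m x y s a c →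
  a = 0 ∧ ∃ α β : ZMod 2, s = (if 0 < m then α else 0) ∧ c = (if (7 : ℤ) ∣ m then 0 else α) ∧
    (∀ p ∈ PR m, x p = if (p : ℤ) ∣ m then α else 0) ∧
    ∀ q ∈ PR m, y q = β + if q = 7 then α else 0

/-- the root number of the twist by `m`, level `21` -/
def w21 (m : ℤ) : ℤ := (if m < 0 then -1 else 1) * (if m % 3 = 1 then 1 else -1) *
  (if m % 7 = 3 ∨ m % 7 = 5 ∨ m % 7 = 6 then -1 else 1)

end Pool.Agent.N809.PQ
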