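import Pool.Agent.N809.PQ.Sums

/-!
# The 2-parity of all the twists of `X_0(15)`: `Sg15 m` implies root number `+1`
-/

set_option autoImplicit false

open Finset

namespace Pool.Agent.N809.PQ

open Pool.Agent.N875.X15
open Pool.Agent.N875.P17
open Pool.Agent.N809.P17 (al_total)

open scoped Classical

variable {m : ℤ}

/-- the active unknowns -/
def act15 (m : ℤ) (k : Fin 3) : Prop := (k = 0 ∧ 0 < m) ∨ (k = 1 ∧ B3 m) ∨ (k = 2 ∧ B5 m)

lemma act15_0 : act15 m 0 ↔ 0 < m := by simp [act15]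
lemma act15_1 : act15 m 1 ↔ B3 m := by simp [act15]
lemma act15_2 : act15 m 2 ↔ B5 m := by simp [act15]

def F15 (p : ℕ) (k : Fin 3) : ZMod 2 := if k = 0 then 0 else if k = 1 then ra p (-3) else ra p 5

def G15 (m : ℤ) (q : ℕ) (k : Fin 3) : ZMod 2 :=
  if k = 0 then al m q else if k = 1 then 0 else ra 5 (ps m q)

def H15 (k l : Fin 3) : ZMod 2 := if (k = 1 ∧ l ≠ 1) ∨ (k ≠ 1 ∧ l = 1) then 1 else 0

lemma H15_symm : ∀ k l, H15 k l = H15 l k := by
  unfold H15
  decide

lemma F15s (p : ℕ) (z : Fin 3 → ZMod 2) : ∑ k, F15 p k * z k = z 1 * ra p (-3) + z 2 * ra p 5 := by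
  rw [Fin.sum_univ_three]
  have e0 : F15 p 0 = 0 := rfl
  have e1 : F15 p 1 = ra p (-3) := rfl
  have e2 : F15 p 2 = ra p 5 := rfl
  rw [e0, e1, e2]
  ring

lemma G15s (q : ℕ) (z : Fin 3 → ZMod 2) :
    ∑ k, G15 m q k * z k = z 0 * al m q + z 2 * ra 5 (ps m q) := by
  rw [Fin.sum_univ_three]
  have e0 : G15 m q 0 = al m q := rfl
  have e1 : G15 m q 1 = 0 := rfl
  have e2 : G15 m q 2 = ra 5 (ps m q) := rfl
  rw [e0, e1, e2]
  ring

lemma H15s0 (z : Fin 3 → ZMod 2) : ∑ l, H15 0 l * z l = z 1 := by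
  rw [Fin.sum_univ_three]
  have e0 : H15 0 0 = 0 := by decide
  have e1 : H15 0 1 = 1 := by decide
  have e2 : H15 0 2 = 0 := by decide
  rw [e0, e1, e2]
  ring

lemma H15s1 (z : Fin 3 → ZMod 2) : ∑ l, H15 1 l * z l = z 0 + z 2 := by
  rw [Fin.sum_univ_three]
  have e0 : H15 1 0 = 1 := by decide
  have e1 : H15 1 1 = 0 := by decide
  have e2 : H15 1 2 = 1 := by decide
  rw [e0, e1, e2]
  ring

lemma H15s2 (z : Fin 3 → ZMod 2) : ∑ l, H15 2 l * z l = z 1 := by
  rw [Fin.sum_univ_three]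
  have e0 : H15 2 0 = 0 := by decide
  have e1 : H15 2 1 = 1 := by decide
  have e2 : H15 2 2 = 0 := by decide
  rw [e0, e1, e2]
  ring

/-- the two descriptions -/
theorem sys15_iff (hm : m ≠ 0) (x y : ℕ → ZMod 2) (z : Fin 3 → ZMod 2) :
    Sys (PR m) (act15 m) (fun _ => 0) (Lm m) F15 (G15 m) H15 x y z (fun _ => 0) (fun _ => 0)
      (fun _ => 0) ↔ Sol15 m x y (z 0) (z 1) (z 2) := by
  constructor
  · intro h
    refine ⟨fun h0 => h.inact 0 (by rw [act15_0]; omega), fun h0 => h.inact 1 (by rwa [act15_1]),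
      fun h0 => h.inact 2 (by rwa [act15_2]), fun p hp => ?_, fun q hq => ?_, fun h0 => ?_,
      fun h0 => ?_, fun h0 => ?_⟩
    · have h1 := h.row p hp
      rw [F15s, zero_mul, zero_add, ← add_assoc] at h1
      exact h1
    · have h1 := h.col q hq
      rw [G15s, ← add_assoc] at h1
      exact h1
    · have h1 := h.ext 0 (act15_0.2 h0)
      rw [H15s0] at h1
      have e1 : ∑ p ∈ PR m, F15 p 0 * x p = 0 := sum_eq_zero fun p _ => zero_mul _
      rw [e1, zero_add] at h1
      exact h1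
    · have h1 := h.ext 1 (act15_1.2 h0)
      rw [H15s1] at h1
      have e1 : ∑ q ∈ PR m, G15 m q 1 * y q = 0 := sum_eq_zero fun p _ => zero_mul _
      rw [e1, add_zero, ← add_assoc] at h1
      exact h1
    · have h1 := h.ext 2 (act15_2.2 h0)
      rw [H15s2] at h1
      exact h1
  · intro h
    refine ⟨fun k hk => ?_, fun p hp => ?_, fun q hq => ?_, fun k hk => ?_⟩
    · fin_cases k
      · have h0 : ¬ 0 < m := fun h0 => hk (act15_0.2 h0)
        exact h.s0 (by omega)
      · exact h.a0 (fun h0 => hk (act15_1.2 h0))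
      · exact h.c0 (fun h0 => hk (act15_2.2 h0))
    · rw [F15s, zero_mul, zero_add, ← add_assoc]
      exact h.row p hp
    · rw [G15s, ← add_assoc]
      exact h.col q hq
    · fin_cases k
      · have e1 : ∑ p ∈ PR m, F15 p 0 * x p = 0 := sum_eq_zero fun p _ => zero_mul _
        show ∑ p ∈ PR m, F15 p 0 * x p + ∑ q ∈ PR m, G15 m q 0 * y q + ∑ l, H15 0 l * z l = 0
        rw [H15s0, e1, zero_add]
        exact h.sgn (act15_0.1 hk)
      · have e1 : ∑ q ∈ PR m, G15 m q 1 * y q = 0 := sum_eq_zero fun p _ => zero_mul _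
        show ∑ p ∈ PR m, F15 p 1 * x p + ∑ q ∈ PR m, G15 m q 1 * y q + ∑ l, H15 1 l * z l = 0
        rw [H15s1, e1, add_zero, ← add_assoc]
        exact h.at3 (act15_1.1 hk)
      · show ∑ p ∈ PR m, F15 p 2 * x p + ∑ q ∈ PR m, G15 m q 2 * y q + ∑ l, H15 2 l * z l = 0
        rw [H15s2]
        exact h.at5 (act15_2.1 hk)

/-- the first torsion point -/
theorem tor15_y (hs : Squarefree m) : Sol15 m (fun _ => 0) (fun _ => 1) 0 0 0 where
  s0 := fun _ => rfl
  a0 := fun _ => rfl
  c0 := fun _ => rfl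
  row := fun p hp => by
    rw [zero_mul, zero_mul, add_zero, add_zero]
    simp only [mul_one]
    exact row_sum hp
  col := fun q hq => by
    rw [zero_mul, zero_mul, add_zero, add_zero]
    exact sum_eq_zero fun _ _ => mul_zero _
  sgn := fun h0 => by
    simp only [mul_one]
    rw [al_total hs, if_neg (by omega), add_zero]
  at3 := fun _ => by
    rw [add_zero, add_zero]
    exact sum_eq_zero fun _ _ => mul_zero _
  at5 := fun h0 => by
    have h5 : ¬ (5 : ℤ) ∣ m := by unfold B5 at h0; omega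
    have h6 : 5 ∉ PR m := fun h => h5 (by exact_mod_cast dvd_PR hs h (by norm_num))
    rw [add_zero, sum_eq_zero fun _ _ => mul_zero _, zero_add]
    simp only [mul_one]
    rw [sum_ra_ps hs (by norm_num) h6, ra5]
    exact if_pos h0

/-- the second torsion point -/
theorem tor15_x (hs : Squarefree m) : Sol15 m (fun p => if (p : ℤ) ∣ m then 1 else 0) (fun _ => 0)
    (if 0 < m then 1 else 0) 0 0 where
  s0 := fun h => if_neg (by omega)
  a0 := fun _ => rfl
  c0 := fun _ => rfl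
  row := fun p hp => by
    rw [zero_mul, zero_mul, add_zero, add_zero]
    exact sum_eq_zero fun _ _ => mul_zero _
  col := fun q hq => by
    rw [zero_mul, add_zero]
    exact col_tor hs hq
  sgn := fun h0 => by
    rw [add_zero]
    exact sum_eq_zero fun _ _ => mul_zero _
  at3 := fun h0 => by
    unfold B3 at h0
    rw [add_zero, sum_dv hs, one_mul, sum_congr rfl fun p hp => ra_m3 (Nat.mem_primeFactors.1 hp).1,
      sum_ra_abs hs (by norm_num) (by norm_num) (by push_cast; omega), ra3]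
    rcases lt_or_gt_of_ne hs.ne_zero with h | h
    · rw [if_pos (by omega), if_neg (by omega), add_zero]
    · rw [if_neg (by omega), if_pos (by omega)]
      decide
  at5 := fun h0 => by
    unfold B5 at h0
    rw [add_zero, sum_eq_zero (s := PR m) (f := fun q => ra 5 (ps m q) * 0) fun _ _ => mul_zero _,
      add_zero, sum_dv hs, one_mul, sum_congr rfl fun p hp => ra_5 (Nat.mem_primeFactors.1 hp).1,
      sum_ra_abs hs (by norm_num) (by norm_num) (by push_cast; omega), ra5]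
    rcases lt_or_gt_of_ne hs.ne_zero with h | h
    · rw [if_pos (by omega)]
    · rw [if_pos (by omega)]

/-- **2-parity at level 15.** -/
theorem sg15_parity (hs : Squarefree m) (h1 : m ≠ 1) (h2 : m ≠ -1) (hS : Sg15 m) : w15 m = 1 := by
  have hm := hs.ne_zero
  obtain ⟨p0, hp0, hd0⟩ : ∃ p : ℕ, p.Prime ∧ (p : ℤ) ∣ m := by
    obtain ⟨p, hp, hd⟩ := Nat.exists_prime_and_dvd (n := m.natAbs) (by omega)
    exact ⟨p, hp, Int.natCast_dvd.2 hd⟩
  have hP0 := PR_of_dvd hs hp0 hd0
  have key := sys_par (P := PR m) (act := act15 m) (N := fun _ => 0) (L := Lm m) (F := F15)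
    (G := G15 m) (H := H15) H15_symm (Sum.inl ⟨p0, hP0⟩) (Sum.inr (Sum.inl ⟨p0, hP0⟩))
    (tx := fun p => if (p : ℤ) ∣ m then 1 else 0) (ty := fun _ => 0)
    (tz := ![if 0 < m then 1 else 0, 0, 0]) (ux := fun _ => 0) (uy := fun _ => 1)
    (uz := ![0, 0, 0]) ((sys15_iff hm _ _ _).2 (tor15_x hs)) ((sys15_iff hm _ _ _).2 (tor15_y hs))
    (if_pos hd0) rfl rfl ?_ (cx := fun _ => 0) (cy := fun _ => 0) (cz := fun _ => 0) ?_
  · have e1 : ∑ p ∈ PR m, (0 : ZMod 2) * 0 = 0 := sum_eq_zero fun _ _ => mul_zero _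
    have e2 : ∑ k, H15 k k * 0 = 0 := sum_eq_zero fun _ _ => mul_zero _
    rw [e1, e2, add_zero, Fin.sum_univ_three] at key
    unfold w15
    have hneg : 0 < m ↔ ¬ m < 0 := by omega
    have c0 : act15 m 0 ↔ ¬ m < 0 := act15_0.trans hneg
    have c1 : act15 m 1 ↔ m % 3 = 2 := act15_1
    have c2 : act15 m 2 ↔ (m % 5 = 1 ∨ m % 5 = 4) := act15_2
    simp only [c0, c1, c2] at key
    revert key
    by_cases a0 : m < 0 <;> by_cases a1 : m % 3 = 2 <;> by_cases a2 : m % 5 = 1 ∨ m % 5 = 4 <;>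
      simp only [a0, a1, a2, if_true, if_false, not_true, not_false_eq_true] <;> decide
  · intro x y z hz hx hy
    obtain ⟨ha, hc, α, β, e1, e2, e3⟩ := hS x y _ _ _ ((sys15_iff hm _ _ _).1 hz)
    have hα : α = 0 := by
      have h3 : x p0 = 0 := hx
      rwa [e2 p0 hP0, if_pos hd0] at h3
    have hβ : β = 0 := by
      have h3 : y p0 = 0 := hy
      rwa [e3 p0 hP0] at h3
    subst hα hβ
    refine ⟨fun p hp => by rw [e2 p hp, ite_self], e3, fun k _ => ?_⟩
    fin_cases k
    · show z 0 = 0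
      rw [e1, ite_self]
    · exact ha
    · exact hc
  · refine ⟨fun _ _ => rfl, fun p hp => ?_, fun q hq => ?_, fun k hk => ?_⟩
    · rw [sum_eq_zero fun _ _ => mul_zero _, sum_eq_zero fun _ _ => mul_zero _]
      ring
    · rw [sum_eq_zero fun _ _ => mul_zero _, sum_eq_zero fun _ _ => mul_zero _]
      ring
    · rw [sum_eq_zero fun _ _ => mul_zero _, sum_eq_zero fun _ _ => mul_zero _,
        sum_eq_zero fun _ _ => mul_zero _]
      have : ∀ k, H15 k k = 0 := by unfold H15; decide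
      rw [this]
      ring

end Pool.Agent.N809.PQ
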