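import Pool.Agent.N809.PQ.Red21

/-!
# PQ: the system of level 21 in the exceptional class, and the facts on the borders
-/

set_option autoImplicit false
set_option linter.all false

open scoped Classical

namespace Pool.Agent.N809.Red21

open Finset Filter
open Pool.Agent.N916.GB (z2_add_self Ev Gv ch ch_zero ch_add orth)
open Pool.Agent.N875.X15 (PR ps ra)
open Pool.Agent.N875.P17 (al row_sum)
open Pool.Agent.N809.PQ
open Pool.Agent.N916.PQ (Ix Nm wx ua uc vq Kb Kl Kb_Kl Gv_l Lm Lm_Ev Lm1 sm0)

/-- solvability of a linear system over the field with two elements -/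
theorem solv {P Q : Type} [Fintype P] [Fintype Q] (A : P → Q → ZMod 2) (w : P → ZMod 2)
    (h : ∀ X : P → ZMod 2, (∀ q, ∑ p, A p q * X p = 0) → ∑ p, X p * w p = 0) :
    ∃ y : Q → ZMod 2, ∀ p, ∑ q, A p q * y q = w p := by
  by_contra hcon
  push Not at hcon
  have h1 : ∑ y : Q → ZMod 2, ∑ X : P → ZMod 2, ch (∑ p, X p * (∑ q, A p q * y q + w p)) = 0 := by
    refine sum_eq_zero fun y _ => ?_
    rw [orth, if_neg]
    intro h
    obtain ⟨i, hi⟩ := hcon y
    refine hi ?_
    have h2 := h i
    have h3 : ∑ q, A i q * y q = (∑ q, A i q * y q + w i) + w i := by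
      rw [add_assoc, z2_add_self, add_zero]
    rw [h3, h2, zero_add]
  rw [sum_comm] at h1
  have h2 : ∀ X : P → ZMod 2, ∑ y : Q → ZMod 2, ch (∑ p, X p * (∑ q, A p q * y q + w p)) =
      if (∀ q, ∑ p, A p q * X p = 0) then (2 : ℝ) ^ Fintype.card Q else 0 := by
    intro X
    have h3 : ∀ y : Q → ZMod 2, ch (∑ p, X p * (∑ q, A p q * y q + w p)) =
        ch (∑ p, X p * w p) * ch (∑ q, y q * ∑ p, A p q * X p) := by
      intro y
      rw [← ch_add]
      refine congrArg ch ?_
      have h4 : ∑ q, y q * ∑ p, A p q * X p = ∑ p, X p * ∑ q, A p q * y q := by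
        simp only [mul_sum]
        rw [sum_comm]
        refine sum_congr rfl fun i _ => sum_congr rfl fun l _ => ?_
        ring
      rw [h4, ← sum_add_distrib]
      refine sum_congr rfl fun i _ => ?_
      ring
    rw [sum_congr rfl fun y _ => h3 y, ← mul_sum, orth]
    by_cases hX : ∀ q, ∑ p, A p q * X p = 0
    · rw [if_pos hX, h X hX, ch_zero, one_mul]
    · rw [if_neg hX, mul_zero]
  rw [sum_congr rfl fun X _ => h2 X, ← sum_filter, sum_const, nsmul_eq_mul] at h1
  have h3 : (0 : ℝ) < 2 ^ Fintype.card Q := by positivity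
  have h4 : (0 : P → ZMod 2) ∈ univ.filter fun X : P → ZMod 2 => ∀ q, ∑ p, A p q * X p = 0 := by
    rw [mem_filter]
    exact ⟨mem_univ _, fun q => sum_eq_zero fun p _ => by rw [Pi.zero_apply, mul_zero]⟩
  have h5 : 0 < (univ.filter fun X : P → ZMod 2 => ∀ q, ∑ p, A p q * X p = 0).card :=
    card_pos.2 ⟨_, h4⟩
  have h6 : (0 : ℝ) < ((univ.filter fun X : P → ZMod 2 => ∀ q, ∑ p, A p q * X p = 0).card : ℝ) := by
    exact_mod_cast h5
  exact absurd h1 (mul_pos h6 h3).ne'

section
variable {m : ℤ} {V : Type} [Fintype V] {r : V → ℕ}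

/-- the left kernel -/
def InK (m : ℤ) (r : V → ℕ) (x : V → ZMod 2) (s a : ZMod 2) : Prop :=
  ∀ j, ∑ i, Lm (Nm m r) i j * x i + s * ua m r j + a * vq m 3 r j = 0

/-- the linear form -/
noncomputable def gam (m : ℤ) (r : V → ℕ) (x : V → ZMod 2) (s a : ZMod 2) : ZMod 2 :=
  ∑ i, kv m r i * x i + s + a

/-- the bilinear form -/
noncomputable def SS (m : ℤ) (r : V → ℕ) (x : V → ZMod 2) (s a : ZMod 2) (x' : V → ZMod 2)
    (s' a' : ZMod 2) : ZMod 2 :=
  ∑ i, kv m r i * (x i * x' i) + a * ∑ i, uc (-3) r i * x' i + a' * ∑ i, uc (-3) r i * x i +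
    gam m r x s a * gam m r x' s' a' + (s + a) * (s' + a')

theorem gam7 (H : Ix m r) (hs : Squarefree m) (h7 : (7 : ℤ) ∣ m) {x : V → ZMod 2} {s a : ZMod 2}
    (h : InK m r x s a) : gam m r x s a = 0 := by
  have h1 : 7 ∈ PR m := PR_of_dvd hs (by norm_num) (by exact_mod_cast h7)
  rw [← H.im] at h1
  obtain ⟨j, -, hj⟩ := mem_image.1 h1
  have h2 := h j
  have e1 : ua m r j = 1 := by
    unfold ua
    rw [hj]
    exact al7
  have e2 : vq m 3 r j = 1 := by
    unfold vq
    rw [hj, ps7, ra3]
    norm_num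
  have e3 : ∀ i, Lm (Nm m r) i j = kv m r i := by
    intro i
    rw [← H.lm, hj]
    rfl
  rw [e1, e2, mul_one, mul_one, sum_congr rfl fun i _ => by rw [e3 i]] at h2
  exact h2

/-- the form is alternating -/
theorem SS_self (x : V → ZMod 2) (s a : ZMod 2) : SS m r x s a x s a = 0 := by
  unfold SS
  have e : ∑ i, kv m r i * (x i * x i) = ∑ i, kv m r i * x i := by
    refine sum_congr rfl fun i _ => ?_
    have key : ∀ t : ZMod 2, t * t = t := by decide
    rw [key]
  rw [e]
  unfold gam
  generalize ∑ i, kv m r i * x i = A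
  generalize ∑ i, uc (-3) r i * x i = B
  have key : ∀ A B s a : ZMod 2, A + a * B + a * B + (A + s + a) * (A + s + a) +
      (s + a) * (s + a) = 0 := by decide
  exact key _ _ _ _

theorem SS_symm (x : V → ZMod 2) (s a : ZMod 2) (x' : V → ZMod 2) (s' a' : ZMod 2) :
    SS m r x s a x' s' a' = SS m r x' s' a' x s a := by
  unfold SS
  have e : ∑ i, kv m r i * (x i * x' i) = ∑ i, kv m r i * (x' i * x i) :=
    sum_congr rfl fun i _ => by rw [mul_comm (x i)]
  rw [e]
  ring

/-- the pairing of a vector with the right hand side -/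
theorem SS_pair (x : V → ZMod 2) (s a : ZMod 2) (x' : V → ZMod 2) (s' a' : ZMod 2) :
    SS m r x s a x' s' a' =
      ∑ i, x' i * (kv m r i * x i + a * uc (-3) r i + gam m r x s a * kv m r i) +
      s' * (s + a + gam m r x s a) +
      a' * (∑ i, uc (-3) r i * x i + s + a + gam m r x s a) := by
  have e : ∑ i, x' i * (kv m r i * x i + a * uc (-3) r i + gam m r x s a * kv m r i) =
      ∑ i, kv m r i * (x i * x' i) + a * ∑ i, uc (-3) r i * x' i +
        gam m r x s a * ∑ i, kv m r i * x' i := by
    rw [mul_sum, mul_sum, ← sum_add_distrib, ← sum_add_distrib]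
    exact sum_congr rfl fun i _ => by ring
  rw [e]
  unfold SS
  have e2 : gam m r x' s' a' = ∑ i, kv m r i * x' i + s' + a' := rfl
  rw [e2]
  ring

/-- the values of a solution -/
theorem c_gam (H : Ix m r) (hs : Squarefree m) (h7 : ¬ C7 m) {x y : V → ZMod 2} {s a c : ZMod 2}
    (hS : SV m r x y s a c) : c = gam m r x s a := by
  have hK : InK m r x s a := hS.col
  by_cases hm : (7 : ℤ) ∣ m
  · rw [hS.c0 hm, gam7 H hs hm hK]
  · have h8 := hS.at7 hm
    rw [if_neg h7] at h8
    exact (kz h8).symm

/-- the vectors of a solution are in the radical -/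
theorem SS_zero (H : Ix m r) (hs : Squarefree m) (h0 : 0 < m) (h3 : C3 m) (h7 : ¬ C7 m)
    {x y : V → ZMod 2} {s a c : ZMod 2} (hS : SV m r x y s a c) {x' : V → ZMod 2} {s' a' : ZMod 2}
    (h' : InK m r x' s' a') : SS m r x s a x' s' a' = 0 := by
  rw [SS_pair, ← c_gam H hs h7 hS]
  have e1 : ∀ i, kv m r i * x i + a * uc (-3) r i + c * kv m r i = ∑ j, Lm (Nm m r) i j * y j := by
    intro i
    have := hS.row i
    have key : ∀ A B C D : ZMod 2, A + B + C + D = 0 → A + C + D = B := by decide
    exact key _ _ _ _ this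
  have e2 : s + a + c = ∑ j, ua m r j * y j := by
    have := hS.sgn h0
    have key : ∀ A B C D : ZMod 2, A + B + C + D = 0 → B + C + D = A := by decide
    exact key _ _ _ _ this
  have e3 : ∑ i, uc (-3) r i * x i + s + a + c = ∑ j, vq m 3 r j * y j := by
    have := hS.at3 h3
    have key : ∀ A B C D E : ZMod 2, A + B + C + D + E = 0 → A + C + D + E = B := by decide
    exact key _ _ _ _ _ this
  rw [e2, e3, sum_congr rfl fun i _ => by rw [e1 i]]
  have e4 : ∑ i, x' i * ∑ j, Lm (Nm m r) i j * y j + s' * ∑ j, ua m r j * y j +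
      a' * ∑ j, vq m 3 r j * y j =
      ∑ j, (∑ i, Lm (Nm m r) i j * x' i + s' * ua m r j + a' * vq m 3 r j) * y j := by
    simp only [add_mul, sum_add_distrib, mul_sum, sum_mul]
    congr 1
    · congr 1
      · rw [sum_comm]
        exact sum_congr rfl fun i _ => sum_congr rfl fun j _ => by ring
      · exact sum_congr rfl fun j _ => by ring
    · exact sum_congr rfl fun j _ => by ring
  rw [e4]
  exact sum_eq_zero fun j _ => by rw [h' j, zero_mul]

/-- **the exceptional class** -/
theorem sgE (H : Ix m r) (hs : Squarefree m) (h0 : 0 < m) (h3 : C3 m) (h7 : ¬ C7 m) :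
    Sg21 m ↔ (∀ y : V → ZMod 2, (∀ i, Ev (Nm m r) y i = 0) → ∑ j, ua m r j * y j = 0 →
      ∑ j, vq m 3 r j * y j = 0 → ∃ β : ZMod 2, ∀ j, y j = β) ∧
      (∀ (x : V → ZMod 2) (s a : ZMod 2), InK m r x s a →
        (∀ (x' : V → ZMod 2) (s' a' : ZMod 2), InK m r x' s' a' → SS m r x s a x' s' a' = 0) →
        a = 0 ∧ ∀ i, x i = s * wx m r i) := by
  rw [Sg_SV H]
  constructor
  · intro h
    refine ⟨fun y h1 h2 h4 => ?_, fun x s a hK hR => ?_⟩
    · obtain ⟨-, α, β, h5, -, -, h6⟩ := h (fun _ => 0) y 0 0 0 ⟨fun _ => rfl, fun _ => rfl,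
        fun _ => rfl, fun i => by
          rw [zero_mul, zero_mul, add_zero, add_zero, mul_zero, zero_add, Lm_Ev]
          exact h1 i, fun j => by
          rw [zero_mul, zero_mul, add_zero, add_zero, sm0], fun _ => by
          rw [add_zero, add_zero, add_zero]
          exact h2, fun _ => by
          rw [add_zero, add_zero, add_zero, sm0, zero_add]
          exact h4, fun _ => by rw [sm0, if_neg h7]; decide⟩
      rw [if_pos h0] at h5
      refine ⟨β, fun j => ?_⟩
      rw [h6 j, ← h5, zero_mul, add_zero]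
    · obtain ⟨y, hy⟩ := solv (P := Option (Option V)) (Q := V)
        (fun p j => Option.elim p (ua m r j) fun p' => Option.elim p' (vq m 3 r j) fun i =>
          Lm (Nm m r) i j)
        (fun p => Option.elim p (s + a + gam m r x s a) fun p' => Option.elim p'
          (∑ i, uc (-3) r i * x i + s + a + gam m r x s a) fun i =>
            kv m r i * x i + a * uc (-3) r i + gam m r x s a * kv m r i) (fun X hX => by
          rw [Fintype.sum_option, Fintype.sum_option]
          simp only [Option.elim_none, Option.elim_some]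
          have h8 : InK m r (fun i => X (some (some i))) (X none) (X (some none)) := by
            intro j
            have h9 := hX j
            rw [Fintype.sum_option, Fintype.sum_option] at h9
            simp only [Option.elim_none, Option.elim_some] at h9
            rw [← h9]
            ring
          have h9 := hR _ _ _ h8
          rw [SS_pair] at h9
          rw [← h9]
          ring)
      have hy1 : ∑ j, ua m r j * y j = s + a + gam m r x s a := hy none
      have hy2 : ∑ j, vq m 3 r j * y j = ∑ i, uc (-3) r i * x i + s + a + gam m r x s a :=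
        hy (some none)
      have hy3 : ∀ i, ∑ j, Lm (Nm m r) i j * y j =
        kv m r i * x i + a * uc (-3) r i + gam m r x s a * kv m r i := fun i => hy (some (some i))
      obtain ⟨ha, α, β, h5, -, h8, -⟩ := h x y s a (gam m r x s a) ⟨fun h => absurd h (by omega),
        fun h => absurd h3 h, fun hm => gam7 H hs hm hK, fun i => by
          rw [hy3 i]
          have key : ∀ A B C : ZMod 2, A + (A + B + C) + B + C = 0 := by decide
          exact key _ _ _, hK, fun _ => by
          rw [hy1]
          have key : ∀ A B C : ZMod 2, A + B + C + A + B + C = 0 := by decide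
          exact key _ _ _, fun _ => by
          rw [hy2]
          have key : ∀ T A B C : ZMod 2, T + (T + A + B + C) + A + B + C = 0 := by decide
          exact key _ _ _ _, fun _ => by
          rw [if_neg h7]
          exact dd _⟩
      rw [if_pos h0] at h5
      refine ⟨ha, fun i => ?_⟩
      rw [h8 i, ← h5]
  · rintro ⟨hA, hB⟩ x y s a c hS
    have hK : InK m r x s a := hS.col
    obtain ⟨ha, hx⟩ := hB x s a hK fun x' s' a' h' => SS_zero H hs h0 h3 h7 hS h'
    have hc := c_gam H hs h7 hS
    have hT := torx H hs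
    have hcT : c = s * (if (7 : ℤ) ∣ m then 0 else 1) := by
      have h1 := c_gam H hs h7 hT
      rw [hc, h1, if_pos h0]
      unfold gam
      rw [ha, sum_congr rfl fun i _ => by rw [hx i, mul_left_comm], ← mul_sum]
      ring
    have h1 := hS.sgn h0
    have h2 := hT.sgn h0
    have h4 := hS.at3 h3
    have h5 := hT.at3 h3
    rw [if_pos h0] at h2 h5
    have e0 : ∀ f : V → ZMod 2, ∑ j, f j * (y j + s * d7 r j) = ∑ j, f j * y j +
        s * ∑ j, f j * d7 r j := by
      intro f
      rw [mul_sum, ← sum_add_distrib]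
      exact sum_congr rfl fun j _ => by ring
    obtain ⟨β, hβ⟩ := hA (fun j => y j + s * d7 r j) (fun i => by
        have h8 := row_sub H hs hS hx i
        rw [ha, hcT, zero_mul, add_zero, dd, zero_mul, add_zero] at h8
        exact h8) (by
        rw [e0]
        rw [ha] at h1
        rw [hcT] at h1
        generalize ∑ j, ua m r j * y j = A at h1 ⊢
        generalize ∑ j, ua m r j * d7 r j = B at h2 ⊢
        generalize (if (7 : ℤ) ∣ m then (0 : ZMod 2) else 1) = ε at h1 h2 ⊢
        have key : ∀ A B ε s : ZMod 2, A + s + 0 + s * ε = 0 → B + 1 + 0 + ε = 0 →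
          A + s * B = 0 := by decide
        exact key _ _ _ _ h1 h2) (by
        rw [e0]
        have e : ∑ i, uc (-3) r i * x i = s * ∑ i, uc (-3) r i * wx m r i := by
          rw [mul_sum]
          exact sum_congr rfl fun i _ => by rw [hx i]; ring
        rw [ha, hcT, e] at h4
        generalize ∑ j, vq m 3 r j * y j = A at h4 ⊢
        generalize ∑ j, vq m 3 r j * d7 r j = B at h5 ⊢
        generalize ∑ i, uc (-3) r i * wx m r i = C at h4 h5 ⊢
        generalize (if (7 : ℤ) ∣ m then (0 : ZMod 2) else 1) = ε at h4 h5 ⊢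
        have key : ∀ A B C ε s : ZMod 2, s * C + A + s + 0 + s * ε = 0 →
          C + B + 1 + 0 + ε = 0 → A + s * B = 0 := by decide
        exact key _ _ _ _ _ h4 h5)
    refine ⟨ha, s, β, (if_pos h0).symm, ?_, hx, fun i => ?_⟩
    · rw [hcT]
      split_ifs
      · rw [mul_zero]
      · rw [mul_one]
    · have h8 : y i + s * d7 r i = β := hβ i
      rw [← h8, add_assoc, dd, add_zero]

/-! ### the facts on the borders -/

theorem sum_ua (H : Ix m r) (hs : Squarefree m) (h0 : 0 < m) : ∑ j, ua m r j = 0 := by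
  have := (tory H hs).sgn h0
  rw [add_zero, add_zero, add_zero] at this
  simpa only [mul_one] using this

theorem sum_v3 (H : Ix m r) (hs : Squarefree m) (h3 : C3 m) : ∑ j, vq m 3 r j = 0 := by
  have := (tory H hs).at3 h3
  rw [add_zero, add_zero, add_zero, sm0, zero_add] at this
  simpa only [mul_one] using this

theorem InK_wx (H : Ix m r) (hs : Squarefree m) (h0 : 0 < m) : InK m r (wx m r) 1 0 := by
  intro j
  have := (torx H hs).col j
  rw [if_pos h0] at this
  exact this

theorem SS_wx (H : Ix m r) (hs : Squarefree m) (h0 : 0 < m) (h3 : C3 m) (h7 : ¬ C7 m)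
    {x' : V → ZMod 2} {s' a' : ZMod 2} (h' : InK m r x' s' a') :
    SS m r (wx m r) 1 0 x' s' a' = 0 := by
  have h := torx H hs
  rw [if_pos h0] at h
  exact SS_zero H hs h0 h3 h7 h h'

theorem factsA (H : Ix m r) (hs : Squarefree m) (h0 : m < 0) :
    ∀ j, ∑ i, Lm (Nm m r) i j * wx m r i = 0 := fun j => by
  have := colx H hs j
  rw [if_neg (by omega), zero_mul, add_zero] at this
  exact this

theorem factsB (H : Ix m r) (hs : Squarefree m) (h0 : 0 < m) (h7 : C7 m) :
    ∑ j, ua m r j = 0 ∧ (∀ j, ∑ i, Lm (Nm m r) i j * wx m r i + 1 * ua m r j = 0) ∧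
      ∑ i, uc (-7) r i * wx m r i + 1 * 1 = 0 := by
  have hm : ¬ (7 : ℤ) ∣ m := by
    unfold C7 at h7
    omega
  refine ⟨sum_ua H hs h0, fun j => ?_, ?_⟩
  · have := colx H hs j
    rw [if_pos h0] at this
    exact this
  · have := (torx H hs).at7 hm
    rw [if_pos h7, if_pos h0, add_zero, add_zero] at this
    rw [mul_one]
    simpa only [kv_uc H hs hm] using this

theorem factsC (H : Ix m r) (hs : Squarefree m) (h0 : m < 0) (h3 : C3 m) (h7 : C7 m) :
    ∑ j, vq m 3 r j = 0 ∧ (∀ j, ∑ i, Lm (Nm m r) i j * wx m r i + 0 * vq m 3 r j = 0) ∧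
      ∑ i, uc (-7) r i * wx m r i + 0 * 1 = 0 := by
  have hm : ¬ (7 : ℤ) ∣ m := by
    unfold C7 at h7
    omega
  refine ⟨sum_v3 H hs h3, fun j => ?_, ?_⟩
  · rw [zero_mul, add_zero]
    exact factsA H hs h0 j
  · have := (torx H hs).at7 hm
    rw [if_pos h7, if_neg (by omega), add_zero, add_zero, add_zero] at this
    rw [zero_mul, add_zero]
    simpa only [kv_uc H hs hm] using this

end

end Pool.Agent.N809.Red21
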