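import Pool.Agent.N809.P17.Pty
import Pool.Agent.N809.PQ.Def

/-!
# The parity of a symmetric matrix over `F_2` with a kernel of dimension two
-/

set_option autoImplicit false

open Finset

namespace Pool.Agent.N809.PQ

section lin

variable {κ : Type} [Fintype κ] [DecidableEq κ]

lemma z2 (a : ZMod 2) : a + a = 0 := by revert a; decide

lemma z2m (a : ZMod 2) : a * a = a := by revert a; decide

/-- the columns of the border -/
def bd (i0 j0 : κ) (i : κ) (b : Bool) : ZMod 2 :=
  if b = true then (if i = i0 then 1 else 0) else (if i = j0 then 1 else 0)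

lemma sum_bd (i0 j0 : κ) (b : Bool) (v : κ → ZMod 2) :
    ∑ i, bd i0 j0 i b * v i = if b = true then v i0 else v j0 := by
  unfold bd
  cases b with
  | true =>
    simp only [if_true]
    rw [sum_congr rfl fun i _ => show (if i = i0 then (1 : ZMod 2) else 0) * v i =
      if i = i0 then v i else 0 by split_ifs <;> ring, sum_ite_eq', if_pos (mem_univ _)]
  | false =>
    simp only [Bool.false_eq_true, if_false]
    rw [sum_congr rfl fun i _ => show (if i = j0 then (1 : ZMod 2) else 0) * v i =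
      if i = j0 then v i else 0 by split_ifs <;> ring, sum_ite_eq', if_pos (mem_univ _)]

/-- symmetry -/
lemma symm_dot (M : Matrix κ κ (ZMod 2)) (hs : ∀ i j, M i j = M j i) (v w : κ → ZMod 2) :
    ∑ i, M.mulVec v i * w i = ∑ i, v i * M.mulVec w i := by
  simp only [Matrix.mulVec, dotProduct]
  simp only [sum_mul, mul_sum]
  rw [sum_comm]
  refine sum_congr rfl fun i _ => sum_congr rfl fun j _ => ?_
  rw [hs i j]
  ring

/-- the parity of the size of a symmetric matrix with a kernel of dimension two -/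
theorem par2 (M : Matrix κ κ (ZMod 2)) (hs : ∀ i j, M i j = M j i) {i0 j0 : κ}
    {T U : κ → ZMod 2} (hT : M.mulVec T = 0) (hU : M.mulVec U = 0) (Ti : T i0 = 1) (Tj : T j0 = 0)
    (Ui : U i0 = 0) (Uj : U j0 = 1)
    (inj : ∀ v : κ → ZMod 2, M.mulVec v = 0 → v i0 = 0 → v j0 = 0 → v = 0) {c : κ → ZMod 2}
    (hc : M.mulVec c = fun i => M i i) : ∑ i, M i i * c i = (Fintype.card κ : ZMod 2) := by
  have cases : ∀ x : ZMod 2, x = 0 ∨ x = 1 := by decide
  set c' : κ → ZMod 2 := c + (c i0) • T + (c j0) • U with hc'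
  have e1 : M.mulVec c' = fun i => M i i := by
    rw [hc', Matrix.mulVec_add, Matrix.mulVec_add, Matrix.mulVec_smul, Matrix.mulVec_smul, hT, hU,
      smul_zero, smul_zero, add_zero, add_zero, hc]
  have e2 : c' i0 = 0 := by
    show c i0 + c i0 * T i0 + c j0 * U i0 = 0
    rw [Ti, Ui, mul_one, mul_zero, add_zero, z2]
  have e3 : c' j0 = 0 := by
    show c j0 + c i0 * T j0 + c j0 * U j0 = 0
    rw [Tj, Uj, mul_one, mul_zero, add_zero, z2]
  have dT : ∀ w : κ → ZMod 2, M.mulVec w = 0 → ∑ i, M i i * w i = 0 := by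
    intro w hw
    have h1 := symm_dot M hs c w
    rw [hc, hw] at h1
    rw [h1]
    exact sum_eq_zero fun i _ => mul_zero _
  have e4 : ∑ i, M i i * c' i = ∑ i, M i i * c i := by
    have h1 := dT T hT
    have h2 := dT U hU
    have h3 : ∀ i, M i i * c' i = M i i * c i + c i0 * (M i i * T i) + c j0 * (M i i * U i) := by
      intro i
      show M i i * (c i + c i0 * T i + c j0 * U i) = _
      ring
    rw [sum_congr rfl fun i _ => h3 i, sum_add_distrib, sum_add_distrib, ← mul_sum, ← mul_sum, h1,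
      h2, mul_zero, mul_zero, add_zero, add_zero]
  set A : Matrix (κ ⊕ Bool) (κ ⊕ Bool) (ZMod 2) := Matrix.fromBlocks M
    (fun i b => bd i0 j0 i b) (fun b i => bd i0 j0 i b) 0 with hA
  have expand1 : ∀ (v : κ ⊕ Bool → ZMod 2) (i : κ), A.mulVec v (Sum.inl i) =
      M.mulVec (fun j => v (Sum.inl j)) i + ∑ b : Bool, bd i0 j0 i b * v (Sum.inr b) := by
    intro v i
    simp only [Matrix.mulVec, dotProduct, Fintype.sum_sum_type, hA, Matrix.fromBlocks_apply₁₁,
      Matrix.fromBlocks_apply₁₂]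
  have expand2 : ∀ (v : κ ⊕ Bool → ZMod 2) (b : Bool), A.mulVec v (Sum.inr b) =
      ∑ i, bd i0 j0 i b * v (Sum.inl i) := by
    intro v b
    simp only [Matrix.mulVec, dotProduct, Fintype.sum_sum_type, hA, Matrix.fromBlocks_apply₂₁,
      Matrix.fromBlocks_apply₂₂, Matrix.zero_apply, zero_mul, sum_const_zero, add_zero]
  have key := Pool.Agent.N809.P17.par A ?_ ?_ (c := Sum.elim c' (fun _ => 0)) ?_
  · rw [Fintype.sum_sum_type] at key
    have h1 : ∑ b : Bool, A (Sum.inr b) (Sum.inr b) * Sum.elim c' (fun _ => 0) (Sum.inr b) = 0 :=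
      sum_eq_zero fun b _ => mul_zero _
    have h2 : ∑ i : κ, A (Sum.inl i) (Sum.inl i) *
        (Sum.elim c' (fun _ => 0) : κ ⊕ Bool → ZMod 2) (Sum.inl i) = ∑ i, M i i * c' i := rfl
    rw [h1, h2, add_zero, e4, Fintype.card_sum, Fintype.card_bool, Nat.cast_add] at key
    rw [key]
    have h3 : ((2 : ℕ) : ZMod 2) = 0 := by decide
    rw [h3, add_zero]
  · rintro (i | b) (j | b')
    · exact hs i j
    · rfl
    · rfl
    · rfl
  · intro v hv
    set w : κ → ZMod 2 := fun j => v (Sum.inl j) with hw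
    have h1 : ∀ i, M.mulVec w i + ∑ b : Bool, bd i0 j0 i b * v (Sum.inr b) = 0 := by
      intro i
      rw [← expand1, hv]
      rfl
    have h2 : ∀ b : Bool, (if b = true then w i0 else w j0) = 0 := by
      intro b
      rw [← sum_bd, ← expand2, hv]
      rfl
    have wi : w i0 = 0 := by have := h2 true; rwa [if_pos rfl] at this
    have wj : w j0 = 0 := by have := h2 false; rwa [if_neg (by decide)] at this
    have h3 : ∀ i, M.mulVec w i = ∑ b : Bool, bd i0 j0 i b * v (Sum.inr b) := by
      intro i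
      have h4 := h1 i
      have h5 := z2 (∑ b : Bool, bd i0 j0 i b * v (Sum.inr b))
      linear_combination h4 - h5
    have pair : ∀ t : κ → ZMod 2, M.mulVec t = 0 → v (Sum.inr true) * t i0 +
        v (Sum.inr false) * t j0 = 0 := by
      intro t ht
      have h4 := symm_dot M hs w t
      rw [ht] at h4
      have h5 : ∑ i, w i * (0 : κ → ZMod 2) i = 0 := sum_eq_zero fun i _ => mul_zero _
      rw [h5] at h4
      rw [← h4]
      have h6 : ∀ i, M.mulVec w i * t i = v (Sum.inr true) * (bd i0 j0 i true * t i) +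
          v (Sum.inr false) * (bd i0 j0 i false * t i) := by
        intro i
        rw [h3 i, Fintype.sum_bool]
        ring
      rw [sum_congr rfl fun i _ => h6 i, sum_add_distrib, ← mul_sum, ← mul_sum, sum_bd, sum_bd,
        if_pos rfl, if_neg (by decide)]
    have v1 : v (Sum.inr true) = 0 := by
      have := pair T hT
      rwa [Ti, Tj, mul_one, mul_zero, add_zero] at this
    have v2 : v (Sum.inr false) = 0 := by
      have := pair U hU
      rwa [Ui, Uj, mul_one, mul_zero, zero_add] at this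
    have h4 : M.mulVec w = 0 := by
      funext i
      rw [h3 i, Fintype.sum_bool, v1, v2, mul_zero, mul_zero, add_zero]
      rfl
    have h5 := inj w h4 wi wj
    funext i
    rcases i with i | b
    · exact congrFun h5 i
    · cases b with
      | true => exact v1
      | false => exact v2
  · funext i
    rcases i with i | b
    · rw [expand1]
      have h1 : ∑ b : Bool, bd i0 j0 i b * Sum.elim c' (fun _ => 0) (Sum.inr b) = 0 :=
        sum_eq_zero fun b _ => mul_zero _
      rw [h1, add_zero]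
      exact congrFun e1 i
    · rw [expand2]
      show ∑ i, bd i0 j0 i b * c' i = 0
      rw [sum_bd]
      cases b with
      | true => rw [if_pos rfl, e2]
      | false => rw [if_neg (by decide), e3]

/-- the same, `T j0` arbitrary -/
theorem par3 (M : Matrix κ κ (ZMod 2)) (hs : ∀ i j, M i j = M j i) {i0 j0 : κ}
    {T U : κ → ZMod 2} (hT : M.mulVec T = 0) (hU : M.mulVec U = 0) (Ti : T i0 = 1)
    (Ui : U i0 = 0) (Uj : U j0 = 1)
    (inj : ∀ v : κ → ZMod 2, M.mulVec v = 0 → v i0 = 0 → v j0 = 0 → v = 0) {c : κ → ZMod 2}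
    (hc : M.mulVec c = fun i => M i i) : ∑ i, M i i * c i = (Fintype.card κ : ZMod 2) := by
  refine par2 M hs (i0 := i0) (j0 := j0) (T := T + (T j0) • U) (U := U) ?_ hU ?_ ?_ Ui Uj inj hc
  · rw [Matrix.mulVec_add, Matrix.mulVec_smul, hT, hU, smul_zero, add_zero]
  · show T i0 + T j0 * U i0 = 1
    rw [Ti, Ui, mul_zero, add_zero]
  · show T j0 + T j0 * U j0 = 0
    rw [Uj, mul_one, z2]

end lin

/-! ### the systems with three extra unknowns -/

section sys

variable (P : Finset ℕ) (act : Fin 3 → Prop) [DecidablePred act] (N : ℕ → ZMod 2)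
  (L : ℕ → ℕ → ZMod 2) (F G : ℕ → Fin 3 → ZMod 2) (H : Fin 3 → Fin 3 → ZMod 2)

/-- the solutions -/
structure Sys (x y : ℕ → ZMod 2) (z : Fin 3 → ZMod 2) (dx dy : ℕ → ZMod 2)
    (dz : Fin 3 → ZMod 2) : Prop where
  inact : ∀ k, ¬ act k → z k = 0
  row : ∀ p ∈ P, N p * x p + ∑ q ∈ P, L p q * y q + ∑ k, F p k * z k = dx p
  col : ∀ q ∈ P, ∑ p ∈ P, L p q * x p + ∑ k, G q k * z k = dy q
  ext : ∀ k, act k → ∑ p ∈ P, F p k * x p + ∑ q ∈ P, G q k * y q + ∑ l, H k l * z l = dz k

/-- the index set -/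
abbrev Ix := {p // p ∈ P} ⊕ ({p // p ∈ P} ⊕ {k // act k})

/-- the entries -/
def ent : Ix P act → Ix P act → ZMod 2
  | Sum.inl p, Sum.inl q => if p = q then N p else 0
  | Sum.inl p, Sum.inr (Sum.inl q) => L p q
  | Sum.inl p, Sum.inr (Sum.inr k) => F p k
  | Sum.inr (Sum.inl q), Sum.inl p => L p q
  | Sum.inr (Sum.inl _), Sum.inr (Sum.inl _) => 0
  | Sum.inr (Sum.inl q), Sum.inr (Sum.inr k) => G q k
  | Sum.inr (Sum.inr k), Sum.inl p => F p k
  | Sum.inr (Sum.inr k), Sum.inr (Sum.inl q) => G q k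
  | Sum.inr (Sum.inr k), Sum.inr (Sum.inr l) => H k l

/-- the matrix -/
def EM : Matrix (Ix P act) (Ix P act) (ZMod 2) := ent P act N L F G H

/-- the vector of a triple -/
def vc (x y : ℕ → ZMod 2) (z : Fin 3 → ZMod 2) : Ix P act → ZMod 2
  | Sum.inl p => x p
  | Sum.inr (Sum.inl q) => y q
  | Sum.inr (Sum.inr k) => z k

variable {P act N L F G H}

lemma EM_symm (hH : ∀ k l, H k l = H l k) (i j : Ix P act) :
    EM P act N L F G H i j = EM P act N L F G H j i := by
  rcases i with i | i | i <;> rcases j with j | j | j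
  · show (if i = j then N i else 0) = (if j = i then N j else 0)
    by_cases h : i = j
    · subst h; rfl
    · rw [if_neg h, if_neg (Ne.symm h)]
  · rfl
  · rfl
  · rfl
  · rfl
  · rfl
  · rfl
  · rfl
  · exact hH i j

lemma sum_act {z : Fin 3 → ZMod 2} (hz : ∀ k, ¬ act k → z k = 0) (f : Fin 3 → ZMod 2) :
    ∑ k : {k // act k}, f k * z k = ∑ k, f k * z k := by
  have h1 := Finset.sum_subtype (F := inferInstance) (univ.filter act) (p := act)
    (fun k => by simp) (fun k => f k * z k)
  rw [← h1, sum_filter_of_ne]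
  intro k _ hne
  by_contra hk
  exact hne (by rw [hz k hk, mul_zero])

/-- the three components of the product -/
lemma EM_x (x y : ℕ → ZMod 2) (z : Fin 3 → ZMod 2) (hz : ∀ k, ¬ act k → z k = 0)
    (p : {p // p ∈ P}) : (EM P act N L F G H).mulVec (vc P act x y z) (Sum.inl p) =
      N p * x p + ∑ q ∈ P, L p q * y q + ∑ k, F p k * z k := by
  show ∑ j, EM P act N L F G H (Sum.inl p) j * vc P act x y z j = _
  rw [Fintype.sum_sum_type, Fintype.sum_sum_type, ← add_assoc]
  congr 1
  · congr 1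
    · have : ∀ q : {q // q ∈ P}, EM P act N L F G H (Sum.inl p) (Sum.inl q) *
          vc P act x y z (Sum.inl q) = if p = q then N p * x p else 0 := by
        intro q
        show (if p = q then N p else 0) * x q = _
        by_cases h : p = q
        · subst h
          rw [if_pos rfl, if_pos rfl]
        · rw [if_neg h, if_neg h, zero_mul]
      rw [sum_congr rfl fun q _ => this q, sum_ite_eq, if_pos (mem_univ _)]
    · exact sum_coe_sort P (fun q => L p q * y q)
  · exact sum_act hz (fun k => F p k)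

lemma EM_y (x y : ℕ → ZMod 2) (z : Fin 3 → ZMod 2) (hz : ∀ k, ¬ act k → z k = 0)
    (q : {p // p ∈ P}) : (EM P act N L F G H).mulVec (vc P act x y z) (Sum.inr (Sum.inl q)) =
      ∑ p ∈ P, L p q * x p + ∑ k, G q k * z k := by
  show ∑ j, EM P act N L F G H (Sum.inr (Sum.inl q)) j * vc P act x y z j = _
  rw [Fintype.sum_sum_type, Fintype.sum_sum_type]
  have h1 : ∑ j : {p // p ∈ P}, EM P act N L F G H (Sum.inr (Sum.inl q)) (Sum.inr (Sum.inl j)) *
      vc P act x y z (Sum.inr (Sum.inl j)) = 0 := sum_eq_zero fun j _ => zero_mul _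
  rw [h1, zero_add]
  congr 1
  · exact sum_coe_sort P (fun p => L p q * x p)
  · exact sum_act hz (fun k => G q k)

lemma EM_z (x y : ℕ → ZMod 2) (z : Fin 3 → ZMod 2) (hz : ∀ k, ¬ act k → z k = 0)
    (k : {k // act k}) : (EM P act N L F G H).mulVec (vc P act x y z) (Sum.inr (Sum.inr k)) =
      ∑ p ∈ P, F p k * x p + ∑ q ∈ P, G q k * y q + ∑ l, H k l * z l := by
  show ∑ j, EM P act N L F G H (Sum.inr (Sum.inr k)) j * vc P act x y z j = _
  rw [Fintype.sum_sum_type, Fintype.sum_sum_type, ← add_assoc]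
  congr 1
  · congr 1
    · exact sum_coe_sort P (fun p => F p k * x p)
    · exact sum_coe_sort P (fun q => G q k * y q)
  · exact sum_act hz (fun l => H k l)

/-- the product -/
lemma EM_eq {x y : ℕ → ZMod 2} {z : Fin 3 → ZMod 2} {dx dy : ℕ → ZMod 2} {dz : Fin 3 → ZMod 2}
    (h : Sys P act N L F G H x y z dx dy dz) :
    (EM P act N L F G H).mulVec (vc P act x y z) = vc P act dx dy dz := by
  funext i
  rcases i with i | i | i
  · rw [EM_x _ _ _ h.inact]
    exact h.row i i.2
  · rw [EM_y _ _ _ h.inact]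
    exact h.col i i.2
  · rw [EM_z _ _ _ h.inact]
    exact h.ext i i.2

open scoped Classical in
/-- every vector is the vector of a triple -/
lemma vc_surj (v : Ix P act → ZMod 2) : ∃ (x y : ℕ → ZMod 2) (z : Fin 3 → ZMod 2),
    (∀ k, ¬ act k → z k = 0) ∧ v = vc P act x y z := by
  refine ⟨fun p => if h : p ∈ P then v (Sum.inl ⟨p, h⟩) else 0,
    fun p => if h : p ∈ P then v (Sum.inr (Sum.inl ⟨p, h⟩)) else 0,
    fun k => if h : act k then v (Sum.inr (Sum.inr ⟨k, h⟩)) else 0, fun k hk => dif_neg hk, ?_⟩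
  funext i
  rcases i with i | i | i
  · show v _ = dite _ _ _
    rw [dif_pos i.2]
  · show v _ = dite _ _ _
    rw [dif_pos i.2]
  · show v _ = dite _ _ _
    rw [dif_pos i.2]

/-- a zero vector -/
lemma vc_zero : vc P act (fun _ => 0) (fun _ => 0) (fun _ => 0) = 0 := by
  funext i
  rcases i with i | i | i <;> rfl

/-- the solution of the homogeneous system -/
lemma sys_of {x y : ℕ → ZMod 2} {z : Fin 3 → ZMod 2} (hz : ∀ k, ¬ act k → z k = 0)
    (h : (EM P act N L F G H).mulVec (vc P act x y z) = 0) :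
    Sys P act N L F G H x y z (fun _ => 0) (fun _ => 0) (fun _ => 0) where
  inact := hz
  row := fun p hp => by
    have := congrFun h (Sum.inl ⟨p, hp⟩)
    rwa [EM_x _ _ _ hz] at this
  col := fun q hq => by
    have := congrFun h (Sum.inr (Sum.inl ⟨q, hq⟩))
    rwa [EM_y _ _ _ hz] at this
  ext := fun k hk => by
    have := congrFun h (Sum.inr (Sum.inr ⟨k, hk⟩))
    rwa [EM_z _ _ _ hz] at this

/-- **the parity** of the number of active extra unknowns -/
theorem sys_par (hH : ∀ k l, H k l = H l k) (i0 j0 : Ix P act)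
    {tx ty : ℕ → ZMod 2} {tz : Fin 3 → ZMod 2} {ux uy : ℕ → ZMod 2} {uz : Fin 3 → ZMod 2}
    (hT : Sys P act N L F G H tx ty tz (fun _ => 0) (fun _ => 0) (fun _ => 0))
    (hU : Sys P act N L F G H ux uy uz (fun _ => 0) (fun _ => 0) (fun _ => 0))
    (Ti : vc P act tx ty tz i0 = 1)
    (Ui : vc P act ux uy uz i0 = 0) (Uj : vc P act ux uy uz j0 = 1)
    (inj : ∀ (x y : ℕ → ZMod 2) (z : Fin 3 → ZMod 2),
      Sys P act N L F G H x y z (fun _ => 0) (fun _ => 0) (fun _ => 0) →
      vc P act x y z i0 = 0 → vc P act x y z j0 = 0 → (∀ p ∈ P, x p = 0) ∧ (∀ p ∈ P, y p = 0) ∧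
        ∀ k, act k → z k = 0)
    {cx cy : ℕ → ZMod 2} {cz : Fin 3 → ZMod 2}
    (hc : Sys P act N L F G H cx cy cz N (fun _ => 0) (fun k => H k k)) :
    ∑ p ∈ P, N p * cx p + ∑ k, H k k * cz k = ∑ k, if act k then 1 else 0 := by
  have key := par3 (EM P act N L F G H) (EM_symm hH) (i0 := i0) (j0 := j0)
    (T := vc P act tx ty tz) (U := vc P act ux uy uz) (by rw [EM_eq hT, vc_zero])
    (by rw [EM_eq hU, vc_zero]) Ti Ui Uj ?_ (c := vc P act cx cy cz) ?_
  · have h1 : ∑ i, EM P act N L F G H i i * vc P act cx cy cz i =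
        ∑ p ∈ P, N p * cx p + ∑ k, H k k * cz k := by
      rw [Fintype.sum_sum_type, Fintype.sum_sum_type]
      have e1 : ∑ j : {p // p ∈ P}, EM P act N L F G H (Sum.inr (Sum.inl j)) (Sum.inr (Sum.inl j)) *
        vc P act cx cy cz (Sum.inr (Sum.inl j)) = 0 := sum_eq_zero fun j _ => zero_mul _
      rw [e1, zero_add]
      congr 1
      · rw [← sum_coe_sort P (fun p => N p * cx p)]
        refine sum_congr rfl fun p _ => ?_
        show (if p = p then N p else 0) * cx p = _
        rw [if_pos rfl]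
      · exact sum_act hc.inact (fun k => H k k)
    rw [h1] at key
    rw [key, Fintype.card_sum, Fintype.card_sum, Nat.cast_add, Nat.cast_add, ← add_assoc, z2,
      zero_add, Fintype.card_subtype, card_filter, Nat.cast_sum]
    refine sum_congr rfl fun k _ => ?_
    split_ifs <;> norm_num
  · intro v hv h0 h1
    obtain ⟨x, y, z, hz, rfl⟩ := vc_surj v
    obtain ⟨a1, a2, a3⟩ := inj x y z (sys_of hz hv) h0 h1
    funext i
    rcases i with i | i | i
    · exact a1 i i.2
    · exact a2 i i.2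
    · exact a3 i i.2
  · rw [EM_eq hc]
    funext i
    rcases i with i | i | i
    · show N i = if i = i then N i else 0
      rw [if_pos rfl]
    · rfl
    · rfl

end sys

end Pool.Agent.N809.PQ
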