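import Pool.Agent.N916.PQ.Red15
import Pool.Agent.N916.PQ.Half
import Pool.Agent.N809.PQ.P21

/-!
# PQ: the reduction of the system of level 21 to a bordered Rédei matrix, the three ordinary classes
(after `N916/PQ/Red15` of helper916)
-/

set_option autoImplicit false
set_option linter.all false

open scoped Classical

namespace Pool.Agent.N809.Red21

open Finset Filter
open Pool.Agent.N916.GB (z2_add_self Ev Gv)
open Pool.Agent.N875.X15 (PR ps ra)
open Pool.Agent.N875.P17 (al row_sum)
open Pool.Agent.N809.PQ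
open Pool.Agent.N916.PQ (Ix Nm wx ua uc vq Kb Kl Kb_Kl Gv_l Lm Lm_Ev Lm1 sm0)

/-- the column of `7` -/
noncomputable def kv (m : ℤ) {V : Type} (r : V → ℕ) (i : V) : ZMod 2 :=
  Pool.Agent.N875.P17.Lm m (r i) 7
/-- the unit vector at `7` -/
def d7 {V : Type} (r : V → ℕ) (i : V) : ZMod 2 := if r i = 7 then 1 else 0

section
variable {m : ℤ} {V : Type} [Fintype V] {r : V → ℕ}

/-- the system of level 21 -/
structure SV (m : ℤ) (r : V → ℕ) (x y : V → ZMod 2) (s a c : ZMod 2) : Prop where
  s0 : m < 0 → s = 0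
  a0 : ¬ C3 m → a = 0
  c0 : (7 : ℤ) ∣ m → c = 0
  row : ∀ i, kv m r i * x i + ∑ j, Lm (Nm m r) i j * y j + a * uc (-3) r i + c * kv m r i = 0
  col : ∀ j, ∑ i, Lm (Nm m r) i j * x i + s * ua m r j + a * vq m 3 r j = 0
  sgn : 0 < m → ∑ j, ua m r j * y j + s + a + c = 0
  at3 : C3 m → ∑ i, uc (-3) r i * x i + ∑ j, vq m 3 r j * y j + s + a + c = 0
  at7 : ¬ (7 : ℤ) ∣ m → ∑ i, kv m r i * x i + s + a + (if C7 m then 0 else c) = 0

theorem Sol_SV (H : Ix m r) (x y : ℕ → ZMod 2) (s a c : ZMod 2) :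
    Sol21 m x y s a c ↔ SV m r (fun i => x (r i)) (fun i => y (r i)) s a c := by
  have e1 : ∀ i, ∑ q ∈ PR m, Pool.Agent.N875.P17.Lm m (r i) q * y q =
      ∑ j, Lm (Nm m r) i j * y (r j) := fun i => by
    rw [H.sum]
    exact sum_congr rfl fun j _ => by rw [H.lm]
  have e2 : ∀ j, ∑ p ∈ PR m, Pool.Agent.N875.P17.Lm m p (r j) * x p =
      ∑ i, Lm (Nm m r) i j * x (r i) := fun j => by
    rw [H.sum]
    exact sum_congr rfl fun j _ => by rw [H.lm]
  constructor
  · rintro ⟨h1, h2, h3, h4, h5, h6, h7, h8⟩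
    refine ⟨h1, h2, h3, fun i => ?_, fun j => ?_, fun h => ?_, fun h => ?_, fun h => ?_⟩
    · rw [← e1]
      exact h4 _ (H.mem i)
    · rw [← e2]
      exact h5 _ (H.mem j)
    · have := h6 h
      rw [H.sum] at this
      exact this
    · have := h7 h
      rw [H.sum, H.sum] at this
      exact this
    · have := h8 h
      rw [H.sum] at this
      exact this
  · rintro ⟨h1, h2, h3, h4, h5, h6, h7, h8⟩
    refine ⟨h1, h2, h3, ?_, ?_, fun h => ?_, fun h => ?_, fun h => ?_⟩
    · rw [H.all fun p => Pool.Agent.N875.P17.Lm m p 7 * x p +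
        ∑ q ∈ PR m, Pool.Agent.N875.P17.Lm m p q * y q + a * ra p (-3) +
        c * Pool.Agent.N875.P17.Lm m p 7 = 0]
      intro i
      rw [e1]
      exact h4 i
    · rw [H.all fun q => ∑ p ∈ PR m, Pool.Agent.N875.P17.Lm m p q * x p + s * al m q +
        a * ra 3 (ps m q) = 0]
      intro i
      rw [e2]
      exact h5 i
    · rw [H.sum]
      exact h6 h
    · rw [H.sum, H.sum]
      exact h7 h
    · rw [H.sum]
      exact h8 h

theorem Sg_SV (H : Ix m r) : Sg21 m ↔ ∀ (x y : V → ZMod 2) (s a c : ZMod 2), SV m r x y s a c →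
    a = 0 ∧ ∃ α β : ZMod 2, s = (if 0 < m then α else 0) ∧ c = (if (7 : ℤ) ∣ m then 0 else α) ∧
      (∀ i, x i = α * wx m r i) ∧ ∀ i, y i = β + α * d7 r i := by
  have ew : ∀ (α : ZMod 2) i, (if (r i : ℤ) ∣ m then α else 0) = α * wx m r i := by
    intro α i
    unfold wx
    split_ifs
    · rw [mul_one]
    · rw [mul_zero]
  have e7 : ∀ (α : ZMod 2) i, (if r i = 7 then α else 0) = α * d7 r i := by
    intro α i
    unfold d7
    split_ifs
    · rw [mul_one]
    · rw [mul_zero]
  constructor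
  · intro h x y s a c hS
    obtain ⟨x', hx'⟩ := H.ext x
    obtain ⟨y', hy'⟩ := H.ext y
    have e1 : (fun i => x' (r i)) = x := funext hx'
    have e2 : (fun i => y' (r i)) = y := funext hy'
    obtain ⟨h1, α, β, h3, h2, h4, h5⟩ := h x' y' s a c ((Sol_SV H x' y' s a c).2 (by
      rw [e1, e2]
      exact hS))
    refine ⟨h1, α, β, h3, h2, fun i => ?_, fun i => ?_⟩
    · rw [← hx', h4 _ (H.mem i), ew]
    · rw [← hy', h5 _ (H.mem i), e7]
  · intro h x y s a c hS
    obtain ⟨h1, α, β, h3, h2, h4, h5⟩ := h _ _ s a c ((Sol_SV H x y s a c).1 hS)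
    refine ⟨h1, α, β, h3, h2, ?_, ?_⟩
    · rw [H.all fun p => x p = if (p : ℤ) ∣ m then α else 0]
      intro i
      rw [h4 i, ew]
    · rw [H.all fun q => y q = β + if q = 7 then α else 0]
      intro i
      rw [h5 i, e7]

/-! ### the trivial solutions -/

theorem torx (H : Ix m r) (hs : Squarefree m) : SV m r (wx m r) (d7 r)
    (if 0 < m then 1 else 0) 0 (if (7 : ℤ) ∣ m then 0 else 1) :=
  (Sol_SV H _ _ _ _ _).1 (tor21_x hs)

theorem tory (H : Ix m r) (hs : Squarefree m) : SV m r (fun _ => 0) (fun _ => 1) 0 0 0 :=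
  (Sol_SV H _ _ _ _ _).1 (tor21_y hs)

theorem colx (H : Ix m r) (hs : Squarefree m) (j : V) :
    ∑ i, Lm (Nm m r) i j * wx m r i + (if 0 < m then 1 else 0) * ua m r j = 0 := by
  have h := (torx H hs).col j
  rw [zero_mul, add_zero] at h
  exact h

/-- `7` is not ramified -/
theorem ne7 (H : Ix m r) (hs : Squarefree m) (h7 : ¬ (7 : ℤ) ∣ m) (i : V) : r i ≠ 7 := by
  intro h
  have h1 := H.mem i
  rw [h] at h1
  have := dvd_PR hs h1 (by norm_num)
  exact h7 (by exact_mod_cast this)

theorem d7_0 (H : Ix m r) (hs : Squarefree m) (h7 : ¬ (7 : ℤ) ∣ m) (i : V) : d7 r i = 0 :=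
  if_neg (ne7 H hs h7 i)

theorem kv_uc (H : Ix m r) (hs : Squarefree m) (h7 : ¬ (7 : ℤ) ∣ m) (i : V) :
    kv m r i = uc (-7) r i := by
  unfold kv uc Pool.Agent.N875.P17.Lm
  rw [if_neg (ne7 H hs h7 i), ps7]

theorem kz {s u : ZMod 2} (h : s + u = 0) : s = u := by
  have key : ∀ s u : ZMod 2, s + u = 0 → s = u := by decide
  exact key _ _ h

theorem dd (s : ZMod 2) : s + s = 0 := by
  have key : ∀ s : ZMod 2, s + s = 0 := by decide
  exact key _

/-- the rows, after subtraction of the trivial solution -/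
theorem row_sub (H : Ix m r) (hs : Squarefree m) {x y : V → ZMod 2} {s a c α : ZMod 2}
    (hS : SV m r x y s a c) (hx : ∀ i, x i = α * wx m r i) (i : V) :
    Ev (Nm m r) (fun j => y j + α * d7 r j) i + a * uc (-3) r i +
      (c + α * (if (7 : ℤ) ∣ m then 0 else 1)) * kv m r i = 0 := by
  have h1 := hS.row i
  have h2 := (torx H hs).row i
  rw [← Lm_Ev]
  have e : ∑ j, Lm (Nm m r) i j * (y j + α * d7 r j) = ∑ j, Lm (Nm m r) i j * y j +
      α * ∑ j, Lm (Nm m r) i j * d7 r j := by
    rw [mul_sum, ← sum_add_distrib]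
    exact sum_congr rfl fun j _ => by ring
  rw [e]
  rw [hx i] at h1
  rw [zero_mul, add_zero] at h2
  generalize ∑ j, Lm (Nm m r) i j * y j = A at h1 ⊢
  generalize ∑ j, Lm (Nm m r) i j * d7 r j = B at h2 ⊢
  generalize (if (7 : ℤ) ∣ m then (0 : ZMod 2) else 1) = ε at h2 ⊢
  generalize kv m r i = k at h1 h2 ⊢
  generalize wx m r i = w at h1 h2 ⊢
  generalize uc (-3) r i = t at h1 ⊢
  have key : ∀ A B ε k w t a c α : ZMod 2, k * (α * w) + A + a * t + c * k = 0 →
      k * w + B + ε * k = 0 → A + α * B + a * t + (c + α * ε) * k = 0 := by decide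
  exact key _ _ _ _ _ _ _ _ _ h1 h2

end

section
variable {m : ℤ} {V : Type} [Fintype V] {r : V → ℕ} [Nonempty V]

/-- **class A**: `m < 0`, `3` and `7` not split -/
theorem sgA (H : Ix m r) (hs : Squarefree m) (hd : ∃ i, (r i : ℤ) ∣ m) (h0 : m < 0)
    (h3 : ¬ C3 m) (h7 : ¬ C7 m) : Sg21 m ↔ Gv (Nm m r) := by
  have hcol : ∀ j, ∑ i, Lm (Nm m r) i j * wx m r i = 0 := fun j => by
    have := colx H hs j
    rw [if_neg (by omega), zero_mul, add_zero] at this
    exact this
  obtain ⟨i0, hi0⟩ := hd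
  have hw0 : wx m r i0 = 1 := if_pos hi0
  have hne : ∃ i, wx m r i ≠ 0 := ⟨i0, by rw [hw0]; exact one_ne_zero⟩
  rw [Sg_SV H]
  constructor
  · intro h y hy
    obtain ⟨-, α, β, -, -, h5, h4⟩ := h (fun _ => 0) y 0 0 0 ⟨fun _ => rfl, fun _ => rfl,
      fun _ => rfl, fun i => by
        rw [zero_mul, zero_mul, add_zero, add_zero, mul_zero, zero_add, Lm_Ev]
        exact hy i, fun j => by
        rw [zero_mul, zero_mul, add_zero, add_zero, sm0], fun h => absurd h (by omega),
      fun h => absurd h h3, fun _ => by rw [sm0, if_neg h7]; decide⟩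
    have hα : α = 0 := by
      have := h5 i0
      rw [hw0, mul_one] at this
      exact this.symm
    intro p q
    rw [h4, h4, hα, zero_mul, zero_mul]
  · intro h x y s a c hS
    have es := hS.s0 h0
    have ea := hS.a0 h3
    obtain ⟨α, hα⟩ := (Gv_l hcol hne).1 h x fun j => by
      have := hS.col j
      rw [es, ea, zero_mul, zero_mul, add_zero, add_zero] at this
      exact this
    have ec : c = if (7 : ℤ) ∣ m then 0 else α := by
      by_cases hm : (7 : ℤ) ∣ m
      · rw [if_pos hm]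
        exact hS.c0 hm
      · rw [if_neg hm]
        have h8 := hS.at7 hm
        have h9 := (torx H hs).at7 hm
        rw [if_neg h7, es, ea, add_zero, add_zero] at h8
        rw [if_neg h7, if_neg hm, if_neg (by omega), add_zero, add_zero] at h9
        have e : ∑ i, kv m r i * x i = α * ∑ i, kv m r i * wx m r i := by
          rw [mul_sum]
          exact sum_congr rfl fun i _ => by rw [hα i]; ring
        rw [e, kz h9, mul_one] at h8
        exact (kz h8).symm
    have hy : ∀ i, Ev (Nm m r) (fun j => y j + α * d7 r j) i = 0 := by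
      intro i
      have h8 := row_sub H hs hS hα i
      have e : c + α * (if (7 : ℤ) ∣ m then 0 else 1) = 0 := by
        rw [ec]
        split_ifs
        · rw [mul_zero, add_zero]
        · rw [mul_one, dd]
      rw [e, ea, zero_mul, zero_mul, add_zero, add_zero] at h8
      exact h8
    have hc := h _ hy
    refine ⟨ea, α, y i0 + α * d7 r i0, ?_, ec, hα, fun i => ?_⟩
    · rw [es, if_neg (by omega)]
    · have h8 : y i + α * d7 r i = y i0 + α * d7 r i0 := hc i i0
      rw [← h8, add_assoc, dd, add_zero]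

/-- **class B**: `m > 0`, `3` not split, `7` split -/
theorem sgB (H : Ix m r) (hs : Squarefree m) (h0 : 0 < m) (h3 : ¬ C3 m) (h7 : C7 m) :
    Sg21 m ↔ Kb (Nm m r) (uc (-7) r) (ua m r) 1 := by
  have hm : ¬ (7 : ℤ) ∣ m := by
    unfold C7 at h7
    omega
  have hT := torx H hs
  have hU := tory H hs
  have hk : ∀ i, kv m r i = uc (-7) r i := kv_uc H hs hm
  have k1 : ∑ j, ua m r j = 0 := by
    have := hU.sgn h0
    rw [add_zero, add_zero, add_zero] at this
    simpa only [mul_one] using this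
  have k2 : ∀ j, ∑ i, Lm (Nm m r) i j * wx m r i + 1 * ua m r j = 0 := fun j => by
    have := colx H hs j
    rw [if_pos h0] at this
    exact this
  have k3 : ∑ i, uc (-7) r i * wx m r i + 1 * 1 = 0 := by
    have := hT.at7 hm
    rw [if_pos h7, if_pos h0, add_zero, add_zero] at this
    rw [mul_one]
    simpa only [hk] using this
  have kd := Kb_Kl k1 k2 k3 (Or.inr one_ne_zero)
  rw [Sg_SV H]
  constructor
  · intro h y c h1 h2
    obtain ⟨-, α, β, h4, h5, h6, h8⟩ := h (fun _ => 0) y 0 0 c ⟨fun _ => rfl, fun _ => rfl,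
      fun h => absurd h hm, fun i => by
        rw [zero_mul, add_zero, mul_zero, zero_add, Lm_Ev, hk]
        exact h1 i, fun j => by
        rw [zero_mul, zero_mul, add_zero, add_zero, sm0], fun _ => by
        rw [mul_one] at h2
        rw [add_zero, add_zero]
        exact h2, fun h => absurd h h3, fun _ => by
        rw [if_pos h7, sm0]
        decide⟩
    rw [if_pos h0] at h4
    rw [if_neg hm, ← h4] at h5
    refine ⟨h5, β, fun i => ?_⟩
    rw [h8 i, ← h4, zero_mul, add_zero]
  · intro h x y s a c hS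
    have ea := hS.a0 h3
    obtain ⟨α, hs', hα⟩ := (kd.1 h) x s (fun j => by
      have := hS.col j
      rw [ea, zero_mul, add_zero] at this
      exact this) (by
      have := hS.at7 hm
      rw [if_pos h7, ea, add_zero, add_zero] at this
      rw [mul_one]
      simpa only [hk] using this)
    rw [mul_one] at hs'
    have hd : (fun j => y j + α * d7 r j) = y := by
      funext j
      rw [d7_0 H hs hm, mul_zero, add_zero]
    obtain ⟨ec, β, hβ⟩ := h y (c + α) (fun i => by
      have h8 := row_sub H hs hS hα i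
      rw [hd, ea, zero_mul, add_zero, if_neg hm, mul_one, hk] at h8
      exact h8) (by
      have h8 := hS.sgn h0
      rw [ea, add_zero, hs', add_assoc] at h8
      rw [mul_one, add_comm c α]
      exact h8)
    refine ⟨ea, α, β, ?_, ?_, hα, fun i => ?_⟩
    · rw [hs', if_pos h0]
    · rw [if_neg hm]
      exact kz ec
    · rw [hβ i, d7_0 H hs hm, mul_zero, add_zero]

/-- **class C**: `m < 0`, `3` and `7` split -/
theorem sgC (H : Ix m r) (hs : Squarefree m) (hd : ∃ i, (r i : ℤ) ∣ m) (h0 : m < 0) (h3 : C3 m)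
    (h7 : C7 m) : Sg21 m ↔ Kb (Nm m r) (uc (-7) r) (vq m 3 r) 1 := by
  have hm : ¬ (7 : ℤ) ∣ m := by
    unfold C7 at h7
    omega
  have hT := torx H hs
  have hU := tory H hs
  have hk : ∀ i, kv m r i = uc (-7) r i := kv_uc H hs hm
  obtain ⟨i0, hi0⟩ := hd
  have hw0 : wx m r i0 = 1 := if_pos hi0
  have hne : ∃ i, wx m r i ≠ 0 := ⟨i0, by rw [hw0]; exact one_ne_zero⟩
  have k1 : ∑ j, vq m 3 r j = 0 := by
    have := hU.at3 h3
    rw [add_zero, add_zero, add_zero, sm0, zero_add] at this
    simpa only [mul_one] using this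
  have k2 : ∀ j, ∑ i, Lm (Nm m r) i j * wx m r i + 0 * vq m 3 r j = 0 := fun j => by
    have := colx H hs j
    rw [if_neg (by omega), zero_mul] at this
    rw [zero_mul]
    exact this
  have k3 : ∑ i, uc (-7) r i * wx m r i + 0 * 1 = 0 := by
    have := hT.at7 hm
    rw [if_pos h7, if_neg (by omega), add_zero, add_zero, add_zero] at this
    rw [zero_mul, add_zero]
    simpa only [hk] using this
  have k4 : ∑ i, uc (-3) r i * wx m r i = 1 := by
    have := hT.at3 h3
    have e : ∑ j, vq m 3 r j * d7 r j = 0 := sum_eq_zero fun j _ => by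
      rw [d7_0 H hs hm, mul_zero]
    rw [e, if_neg (by omega), if_neg hm, add_zero, add_zero, add_zero] at this
    exact kz this
  have kd := Kb_Kl k1 k2 k3 (Or.inl hne)
  rw [Sg_SV H]
  constructor
  · intro h y c h1 h2
    obtain ⟨-, α, β, h4, h5, h6, h8⟩ := h (fun _ => 0) y 0 0 c ⟨fun _ => rfl, fun _ => rfl,
      fun h => absurd h hm, fun i => by
        rw [zero_mul, add_zero, mul_zero, zero_add, Lm_Ev, hk]
        exact h1 i, fun j => by
        rw [zero_mul, zero_mul, add_zero, add_zero, sm0], fun h => absurd h (by omega), fun _ => by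
        rw [mul_one] at h2
        rw [sm0, zero_add, add_zero, add_zero]
        exact h2, fun _ => by
        rw [if_pos h7, sm0]
        decide⟩
    have hα : α = 0 := by
      have := h6 i0
      rw [hw0, mul_one] at this
      exact this.symm
    rw [if_neg hm, hα] at h5
    refine ⟨h5, β, fun i => ?_⟩
    rw [h8 i, hα, zero_mul, add_zero]
  · intro h x y s a c hS
    have es := hS.s0 h0
    obtain ⟨α, ea, hα⟩ := (kd.1 h) x a (fun j => by
      have := hS.col j
      rw [es, zero_mul, add_zero] at this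
      exact this) (by
      have := hS.at7 hm
      rw [if_pos h7, es, add_zero, add_zero] at this
      rw [mul_one]
      simpa only [hk] using this)
    rw [mul_zero] at ea
    have hd : (fun j => y j + α * d7 r j) = y := by
      funext j
      rw [d7_0 H hs hm, mul_zero, add_zero]
    obtain ⟨ec, β, hβ⟩ := h y (c + α) (fun i => by
      have h8 := row_sub H hs hS hα i
      rw [hd, ea, zero_mul, add_zero, if_neg hm, mul_one, hk] at h8
      exact h8) (by
      have h8 := hS.at3 h3
      have e : ∑ i, uc (-3) r i * x i = α := by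
        rw [sum_congr rfl fun i _ => by rw [hα i, mul_left_comm], ← mul_sum, k4, mul_one]
      rw [e, es, ea, add_zero, add_zero] at h8
      rw [mul_one]
      generalize ∑ j, vq m 3 r j * y j = A at h8 ⊢
      have key : ∀ α A c : ZMod 2, α + A + c = 0 → A + (c + α) = 0 := by decide
      exact key _ _ _ h8)
    refine ⟨ea, α, β, ?_, ?_, hα, fun i => ?_⟩
    · rw [es, if_neg (by omega)]
    · rw [if_neg hm]
      exact kz ec
    · rw [hβ i, d7_0 H hs hm, mul_zero, add_zero]

end

/-! ### the root number condition -/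

/-- the root number condition of level 21 -/
def f21 (m : ℤ) : Bool := decide ((if m < 0 then (-1 : ℤ) else 1) *
  (if m % 3 = 1 then 1 else -1) * (if m % 7 = 3 ∨ m % 7 = 5 ∨ m % 7 = 6 then -1 else 1) = 1)

theorem f21_iff (m : ℤ) : f21 m = true ↔ w21 m = 1 := decide_eq_true_iff

/-- the exceptional class -/
def fD (m : ℤ) : Bool := decide (0 < m ∧ m % 3 = 1 ∧ ¬ (m % 7 = 3 ∨ m % 7 = 5 ∨ m % 7 = 6))

theorem fD_iff (m : ℤ) : fD m = true ↔ 0 < m ∧ C3 m ∧ ¬ C7 m := decide_eq_true_iff

theorem fD_f21 {m : ℤ} (h : fD m = true) : f21 m = true := by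
  obtain ⟨h1, h2, h3⟩ := (fD_iff m).1 h
  rw [f21_iff]
  unfold w21
  unfold C3 at h2
  unfold C7 at h3
  rw [if_neg (by omega), if_pos h2, if_neg h3]
  norm_num

/-- the four classes -/
theorem f21_cases {m : ℤ} (hm : m ≠ 0) (h : f21 m = true) : (m < 0 ∧ ¬ C3 m ∧ ¬ C7 m) ∨
    (0 < m ∧ ¬ C3 m ∧ C7 m) ∨ (m < 0 ∧ C3 m ∧ C7 m) ∨ (0 < m ∧ C3 m ∧ ¬ C7 m) := by
  rw [f21_iff] at h
  unfold w21 at h
  unfold C3 C7
  by_cases h0 : m < 0 <;> by_cases h3 : m % 3 = 1 <;>
    by_cases h7 : m % 7 = 3 ∨ m % 7 = 5 ∨ m % 7 = 6 <;>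
    simp only [h0, h3, h7, if_true, if_false, true_and, false_and, not_true, not_false_iff,
      and_false, and_true, or_false, false_or] <;> first | omega | (norm_num [h0, h3, h7] at h)

theorem hf21 : Pool.Agent.N916.PQ.Hf 84 f21 where
  pos := by norm_num
  four := by norm_num
  per := by
    intro s k n hs hk hn
    unfold f21
    have e0 : (s * (k * n : ℕ) < 0) ↔ (s * (k * (n % 84) : ℕ) < 0) := by
      rcases hs with rfl | rfl <;> rcases hk with rfl | rfl <;> push_cast <;> omega
    have e3 : (s * (k * n : ℕ)) % 3 = (s * (k * (n % 84) : ℕ)) % 3 := by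
      rcases hs with rfl | rfl <;> rcases hk with rfl | rfl <;> push_cast <;> omega
    have e5 : (s * (k * n : ℕ)) % 7 = (s * (k * (n % 84) : ℕ)) % 7 := by
      rcases hs with rfl | rfl <;> rcases hk with rfl | rfl <;> push_cast <;> omega
    simp only [e0, e3, e5]
  w1 := by decide +kernel
  w2 := by decide +kernel
  w3 := by decide +kernel

end Pool.Agent.N809.Red21
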