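import Pool.Agent.N809.PQ.Par

/-!
# Sums of symbols over the ramified primes
-/

set_option autoImplicit false

open Finset

namespace Pool.Agent.N809.PQ

open Pool.Agent.N875.X15
open Pool.Agent.N875.P17
open Pool.Agent.N809.P17 (de pair col_sum al_total zmul_self)

variable {m : ℤ}

lemma sgp3 : sgp 3 = -3 := by
  unfold sgp
  norm_num

lemma sgp5 : sgp 5 = 5 := by
  unfold sgp
  norm_num

lemma sgp7 : sgp 7 = -7 := by
  unfold sgp
  norm_num

lemma ra_star {p q : ℕ} (hp : p.Prime) (hq : q.Prime) (hq2 : q ≠ 2) : ra p (sgp q) = ra q (p : ℤ) := by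
  have := ra_rec (m := 1) hp hq hq2
  rwa [ps_odd hq2] at this

lemma ra_m3 {p : ℕ} (hp : p.Prime) : ra p (-3) = ra 3 (p : ℤ) := by
  rw [← sgp3, ra_star hp (by norm_num) (by norm_num)]

lemma ra_5 {p : ℕ} (hp : p.Prime) : ra p 5 = ra 5 (p : ℤ) := by
  have := ra_star hp (by norm_num : Nat.Prime 5) (by norm_num)
  rwa [sgp5] at this

lemma ra_m7 {p : ℕ} (hp : p.Prime) : ra p (-7) = ra 7 (p : ℤ) := by
  rw [← sgp7, ra_star hp (by norm_num) (by norm_num)]

lemma prime_PR (hs : Squarefree m) {p : ℕ} (hp : p ∈ PR m) : p.Prime :=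
  ((mem_PR hs.ne_zero).1 hp).1

lemma dvd_PR (hs : Squarefree m) {p : ℕ} (hp : p ∈ PR m) (hp2 : p ≠ 2) : (p : ℤ) ∣ m := by
  rcases ((mem_PR hs.ne_zero).1 hp).2 with h | h
  · exact h
  · exact absurd h.1 hp2

lemma PR_of_dvd (hs : Squarefree m) {p : ℕ} (hp : p.Prime) (h : (p : ℤ) ∣ m) : p ∈ PR m :=
  (mem_PR hs.ne_zero).2 ⟨hp, Or.inl h⟩

/-- the ramified primes which divide `m` -/
lemma filter_PR (hs : Squarefree m) :
    (PR m).filter (fun p : ℕ => (p : ℤ) ∣ m) = m.natAbs.primeFactors := by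
  ext p
  rw [mem_filter, Nat.mem_primeFactors, ← Int.natCast_dvd, mem_PR hs.ne_zero]
  have := Int.natAbs_ne_zero.2 hs.ne_zero
  constructor
  · rintro ⟨⟨h1, -⟩, h2⟩
    exact ⟨h1, h2, this⟩
  · rintro ⟨h1, h2, -⟩
    exact ⟨⟨h1, Or.inl h2⟩, h2⟩

lemma sum_dv (hs : Squarefree m) (f : ℕ → ZMod 2) (α : ZMod 2) :
    ∑ p ∈ PR m, f p * (if (p : ℤ) ∣ m then α else 0) = α * ∑ p ∈ m.natAbs.primeFactors, f p := by
  rw [← filter_PR hs, mul_sum, sum_filter]
  refine sum_congr rfl fun p _ => ?_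
  split_ifs <;> ring

/-- the product of the primes which divide `m` -/
lemma sum_ra_abs (hs : Squarefree m) {q : ℕ} (hq : q.Prime) (hq2 : q ≠ 2) (h : ¬ (q : ℤ) ∣ m) :
    ∑ p ∈ m.natAbs.primeFactors, ra q (p : ℤ) = ra q (m.natAbs : ℤ) := by
  have h1 : ∏ p ∈ m.natAbs.primeFactors, p = m.natAbs :=
    Nat.prod_primeFactors_of_squarefree (Int.squarefree_natAbs.2 hs)
  have h2 : (∏ p ∈ m.natAbs.primeFactors, ((p : ℕ) : ℤ)) = (m.natAbs : ℤ) := by
    rw [← Nat.cast_prod, h1]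
  rw [ra_prod hq _ _ fun p hp => ?_, h2]
  have hp' := Nat.mem_primeFactors.1 hp
  refine gd_nat hp'.1 hq hq2 ?_
  rintro rfl
  exact h (Int.natCast_dvd.2 hp'.2.1)

lemma sum_ra_ps (hs : Squarefree m) {q : ℕ} (hq : q.Prime) (h : q ∉ PR m) :
    ∑ r ∈ PR m, ra q (ps m r) = ra q m := by
  rw [ra_prod hq _ _ fun r hr => ?_, prod_PR hs]
  refine gd_ps hs (prime_PR hs hr) hq ?_
  rintro rfl
  exact h hr

lemma ra_mod {q : ℕ} (hq2 : q ≠ 2) {a b : ℤ} (h : a % q = b % q) : ra q a = ra q b := by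
  unfold ra
  rw [ch_odd hq2, ch_odd hq2, jacobiSym.mod_left' h]

lemma ra3 (n : ℤ) : ra 3 n = if n % 3 = 1 then 0 else 1 := by
  rcases (by omega : n % 3 = 0 ∨ n % 3 = 1 ∨ n % 3 = 2) with h | h | h
  · rw [ra_mod (b := 0) (by norm_num) (by rw [Nat.cast_ofNat, h]; norm_num), if_neg (by omega)]
    unfold ra
    rw [ch_odd (by norm_num)]
    norm_num
  · rw [ra_mod (b := 1) (by norm_num) (by rw [Nat.cast_ofNat, h]; norm_num), if_pos h]
    unfold ra
    rw [ch_odd (by norm_num)]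
    norm_num
  · rw [ra_mod (b := 2) (by norm_num) (by rw [Nat.cast_ofNat, h]; norm_num), if_neg (by omega)]
    unfold ra
    rw [ch_odd (by norm_num)]
    norm_num

lemma ra5 (n : ℤ) : ra 5 n = if n % 5 = 1 ∨ n % 5 = 4 then 0 else 1 := by
  rcases (by omega : n % 5 = 0 ∨ n % 5 = 1 ∨ n % 5 = 2 ∨ n % 5 = 3 ∨ n % 5 = 4) with
    h | h | h | h | h
  · rw [ra_mod (b := 0) (by norm_num) (by rw [Nat.cast_ofNat, h]; norm_num), if_neg (by omega)]
    unfold ra
    rw [ch_odd (by norm_num)]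
    norm_num
  · rw [ra_mod (b := 1) (by norm_num) (by rw [Nat.cast_ofNat, h]; norm_num), if_pos (Or.inl h)]
    unfold ra
    rw [ch_odd (by norm_num)]
    norm_num
  · rw [ra_mod (b := 2) (by norm_num) (by rw [Nat.cast_ofNat, h]; norm_num), if_neg (by omega)]
    unfold ra
    rw [ch_odd (by norm_num)]
    norm_num
  · rw [ra_mod (b := 3) (by norm_num) (by rw [Nat.cast_ofNat, h]; norm_num), if_neg (by omega)]
    unfold ra
    rw [ch_odd (by norm_num)]
    norm_num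
  · rw [ra_mod (b := 4) (by norm_num) (by rw [Nat.cast_ofNat, h]; norm_num), if_pos (Or.inr h)]
    unfold ra
    rw [ch_odd (by norm_num)]
    norm_num

lemma ra7 (n : ℤ) : ra 7 n = if n % 7 = 1 ∨ n % 7 = 2 ∨ n % 7 = 4 then 0 else 1 := by
  rcases (by omega : n % 7 = 0 ∨ n % 7 = 1 ∨ n % 7 = 2 ∨ n % 7 = 3 ∨ n % 7 = 4 ∨ n % 7 = 5 ∨
    n % 7 = 6) with h | h | h | h | h | h | h
  · rw [ra_mod (b := 0) (by norm_num) (by rw [Nat.cast_ofNat, h]; norm_num), if_neg (by omega)]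
    unfold ra
    rw [ch_odd (by norm_num)]
    norm_num
  · rw [ra_mod (b := 1) (by norm_num) (by rw [Nat.cast_ofNat, h]; norm_num), if_pos (Or.inl h)]
    unfold ra
    rw [ch_odd (by norm_num)]
    norm_num
  · rw [ra_mod (b := 2) (by norm_num) (by rw [Nat.cast_ofNat, h]; norm_num), if_pos (by omega)]
    unfold ra
    rw [ch_odd (by norm_num)]
    norm_num
  · rw [ra_mod (b := 3) (by norm_num) (by rw [Nat.cast_ofNat, h]; norm_num), if_neg (by omega)]
    unfold ra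
    rw [ch_odd (by norm_num)]
    norm_num
  · rw [ra_mod (b := 4) (by norm_num) (by rw [Nat.cast_ofNat, h]; norm_num), if_pos (by omega)]
    unfold ra
    rw [ch_odd (by norm_num)]
    norm_num
  · rw [ra_mod (b := 5) (by norm_num) (by rw [Nat.cast_ofNat, h]; norm_num), if_neg (by omega)]
    unfold ra
    rw [ch_odd (by norm_num)]
    norm_num
  · rw [ra_mod (b := 6) (by norm_num) (by rw [Nat.cast_ofNat, h]; norm_num), if_neg (by omega)]
    unfold ra
    rw [ch_odd (by norm_num)]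
    norm_num

lemma de_eq (hs : Squarefree m) {p : ℕ} (hp : p ∈ PR m) :
    (if (p : ℤ) ∣ m then (1 : ZMod 2) else 0) = 1 + if p = 2 then de m else 0 := by
  by_cases hp2 : p = 2
  · subst hp2
    rw [if_pos rfl]
    unfold de
    obtain ⟨e1, e2⟩ := d2_spec hs
    have h4 := (two_mem_PR hs.ne_zero).1 hp
    have ho := oe_mod m
    rcases e2 with ⟨h1, h2 | h2⟩ | ⟨h1, h2 | h2⟩
    · exfalso
      rw [h2, one_mul] at e1
      rw [← e1] at ho
      exact h4 ho
    · rw [if_neg (by exact_mod_cast h1), if_pos ⟨hp, h2⟩]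
      decide
    · rw [if_pos (by exact_mod_cast h1), if_neg (by rw [h2]; norm_num), add_zero]
    · rw [if_pos (by exact_mod_cast h1), if_neg (by rw [h2]; norm_num), add_zero]
  · rw [if_neg hp2, if_pos (dvd_PR hs hp hp2), add_zero]

/-- the second torsion point -/
lemma col_tor (hs : Squarefree m) {q : ℕ} (hq : q ∈ PR m) :
    ∑ p ∈ PR m, Lm m p q * (if (p : ℤ) ∣ m then 1 else 0) +
      (if 0 < m then 1 else 0) * al m q = 0 := by
  have h1 : ∀ p ∈ PR m, Lm m p q * (if (p : ℤ) ∣ m then (1 : ZMod 2) else 0) =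
      Lm m p q + if p = 2 then de m * Lm m p q else 0 := by
    intro p hp
    rw [de_eq hs hp]
    split_ifs <;> ring
  rw [sum_congr rfl h1, sum_add_distrib, sum_ite_eq', col_sum hs hq, al_total hs]
  have e : (if 2 ∈ PR m then de m * Lm m 2 q else 0) =
      de m * (if 2 ∈ PR m then Lm m 2 q else 0) := by
    split_ifs <;> ring
  rw [e]
  have h2 := z2 (de m * (if 2 ∈ PR m then Lm m 2 q else 0))
  have h3 := z2 (al m q)
  have hm := hs.ne_zero
  rcases lt_or_gt_of_ne hm with h | h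
  · rw [if_pos h, if_neg (show ¬ 0 < m by omega)]
    linear_combination h2 + h3
  · rw [if_neg (show ¬ m < 0 by omega), if_pos h]
    linear_combination h2 + h3

end Pool.Agent.N809.PQ
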